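import Pool.Agent.Work.MP_db9399_oxe_helper48.Defs
import Pool.Agent.Work.MP_db9399_xc_helper38.ATOMS
import Pool.Agent.Work.MP_db9399_x4.XF4

/-!
# MP_db9399, OUTX (helper72; form of helper6): statement of the outside stage

From the pieces without labels (`PcD` for both constants of the cuts, DECX), the links to the clusters
and the closed family of the clusters (`Clx`, ATOMS) to labelled pieces `PcX` and the colouring `PreX4`.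
-/

set_option autoImplicit false

namespace Pool.Agent.Work.MP_db9399_outx

open Finset Classical
open Pool.Agent.Work.MP_db9399_all (nb)
open Pool.Agent.Work.MP_db9399_da
open Pool.Agent.Work.MP_db9399_xf
open Pool.Agent.Work.MP_db9399_iv
open Pool.Agent.Work.MP_db9399_oxe (sLam)
open Pool.Agent.Work.MP_db9399_x4 (PreX4)

universe u

/-- Links of the pieces to the clusters (from `dx.Lnk` for `κ ≤ 1 / 8`, file `Lnk.lean`). -/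
structure LkO {V : Type u} [Fintype V] {N J : ℕ} (z0 κ : ℝ) (G : SimpleGraph V) (d : ℕ)
    (Cs : Finset (Finset V)) (X : XD V N J) : Prop where
  hk : ∀ v ∈ X.Hv, InT X Ty.K v
  vh : ∀ Q ∈ Cs, ((Q.filter fun v => v ∈ X.P.V0 ∨ v ∈ X.Hv).card : ℝ) ≤ κ * d
  mz : ∀ v ∈ X.P.V0, ∀ Q ∈ Cs, z0 * d ≤ ((Q \ nb G v).card : ℝ)
  v0n : V0n G d X

/-- **OUTX.** `Mc`: constant of the clusters, `cg`: exponent of their scale `gC`; `θ1`, `κ` bounds for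
`θ'` and `LkO.vh`; `Lam`: loss (`θ` of the scales, `η`); `rr`: constants of the cuts as in TSPLIT. -/
def Stmt_OUTX : Prop :=
  ∀ πk : ℝ, 1 / 4 ≤ πk → πk < 1 / 3 → ∃ (Mc κ Lam θ1 cg : ℝ) (rr : ℝ → ℝ), 1 ≤ Mc ∧ 0 < κ ∧
    κ ≤ 1 / 8 ∧ 1 ≤ Lam ∧ 0 < θ1 ∧ 0 < cg ∧ cg ≤ 1 / 100 ∧
    (∀ r, 0 < r → r ≤ 1 → 0 < rr r ∧ rr r ≤ r) ∧
    ∀ (g z θk η τ e : ℝ) (M : ℕ), 0 < g → g ≤ 1 / 10 → 0 < z → z ≤ 1 / 10 → 0 < θk →
    θk ≤ 1 / 100 → 0 < η → η ≤ 1 → 0 < τ → 64 * τ ≤ e → ∃ T : Thr, T.Pos ∧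
    ∀ (J : ℕ) (S : Fin J → Scl) (ρS : Fin J → ℝ) (c' : ℝ), (∀ s, Adm T (S s)) →
    (∀ s, 0 < ρS s ∧ ρS s ≤ 1 ∧ (S s).ρ = rr (ρS s)) → 0 < c' → ∃ d0 : ℕ,
    ∀ {V : Type u} [Fintype V] {N : ℕ} (G : SimpleGraph V) (d : ℕ) (X : XD V N J)
      (θ' aC gC ζc : ℝ) (Cs : Finset (Finset V)), d0 ≤ d → θ' ≤ θ1 → 0 < aC →
      aC ≤ (d : ℝ) ^ (-c') → (d : ℝ) ^ (-cg) ≤ gC → gC ≤ 1 → ζc ≤ 1 / 8 →
      MP_db9399_xc.helper38.Clx G d Mc ζc aC gC Cs →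
      PcD (4 * Mc + 1) g z θk θ' (η / Lam) ((d : ℝ) ^ (-c')) M (fun s => sLam Lam (S s)) G d X →
      PcD (4 * Mc + 1) g z θk θ' (η / Lam) ((d : ℝ) ^ (-c')) M
        (fun s => { sLam Lam (S s) with ρ := ρS s }) G d X →
      LkO (min z (g / 2)) κ G d Cs X →
      ∃ (X' : XD V N J) (A : PalX) (t : V → V → ℕ) (c m : V → ℕ), SameX X X' ∧
        PcX (4 * Mc + 1) g z θk θ' η ((d : ℝ) ^ (-c')) M S G d X' ∧
        (∀ v ∈ X'.Hv, InT X' Ty.K v) ∧ PalXP πk A d ∧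
        PreX4 πk η τ (e / 8) S G d X' A t c m

end Pool.Agent.Work.MP_db9399_outx
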