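import Pool.Agent.Work.MP_db9399_outx.Lift
import Pool.Agent.Work.MP_db9399_ox_helper68.OXB2
import Pool.Agent.Work.MP_db9399_xf_helper62.BX3

/-! # MP_db9399, OUTX (helper72): the assembly of the outside stage -/

set_option autoImplicit false
set_option linter.unusedSectionVars false

namespace Pool.Agent.Work.MP_db9399_outx

open Finset hiding box
open Classical
open Pool.Agent.Work.MP_db9399_all (nb mis)
open Pool.Agent.Work.MP_db9399_da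
open Pool.Agent.Work.MP_db9399_xf
open Pool.Agent.Work.MP_db9399_iv
open Pool.Agent.Work.MP_db9399_sg (nod nsd)
open Pool.Agent.Work.MP_db9399_ox
open Pool.Agent.Work.MP_db9399_oxe (Erx ccv OwP sLam NmX PreV Stmt_OXE)
open Pool.Agent.Work.MP_db9399_cfg_helper44 (CfO CfG Stmt_CFG)
open Pool.Agent.Work.MP_db9399_oxa.helper75 (mG)
open Pool.Agent.Work.MP_db9399_brx.helper75 (Stmt_BRX)
open Pool.Agent.Work.MP_db9399_og (Stmt_OWNG2)
open Pool.Agent.Work.MP_db9399_ox.helper68 (Stmt_OXB2)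
open Pool.Agent.Work.MP_db9399_x4 (PreX4)

universe u

/-- `PreX4` from `PreV` -/
theorem prex4_of {V : Type u} [Fintype V] {N J : ℕ} {X : XD V N J} {S : Fin J → Scl}
    {G : SimpleGraph V} {d : ℕ} {A : PalX} {t : V → V → ℕ} {c m : V → ℕ} {πk η τ e : ℝ}
    (h1 : 1 / 4 ≤ πk) (h2 : πk < 1 / 3)
    (h : PreV 100 ((1 - 3 * πk) / 10 ^ 7) (1 / 2 + (1 - 3 * πk) / 10 ^ 7)
      ((1 - 3 * πk) / 10 ^ 7) η τ e S G d X A t c m) : PreX4 πk η τ e S G d X A t c m := by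
  have hυ : (1 - 3 * πk) / 10 ^ 7 ≤ 1 / 400 := by
    rw [div_le_div_iff₀ (by norm_num) (by norm_num)]
    linarith
  refine
    { toTcX := h.toTcX
      toOwX := h.toOwX
      rQ := h.rQ
      ld := h.ld
      exc := h.exc
      tot := fun n hn β => (h.tot n hn β).trans
        (mul_le_mul_of_nonneg_right (by linarith) (Nat.cast_nonneg _))
      neg := fun n hn j => (h.neg n hn j).trans (mul_le_mul_of_nonneg_right ?_ (Nat.cast_nonneg _))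
      sup := h.sup
      mm := h.mm
      ms := h.ms }
  have h3 : (1 - 3 * πk) / 10 ^ 7 * (sV X.P n false).card ≤ 1 / 400 * (sV X.P n false).card :=
    mul_le_mul_of_nonneg_right hυ (Nat.cast_nonneg _)
  have h4 := div_le_div_of_nonneg_right h3 (Nat.cast_nonneg (α := ℝ) d)
  linarith

/-- thresholds with an upper bound for `ζ` -/
def Tz (x : ℝ) : Thr where
  π0 := fun _ => 1
  κ0 := fun _ _ => 1
  ε0 := fun _ _ _ => 1
  ζ0 := fun _ _ _ _ => x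
  θ0 := fun _ _ _ _ _ => 1

theorem Tz_pos {x : ℝ} (hx : 0 < x) : (Tz x).Pos :=
  ⟨fun _ _ => one_pos, fun _ _ _ _ => one_pos, fun _ _ _ _ _ _ => one_pos,
    fun _ _ _ _ _ _ _ _ => hx, fun _ _ _ _ _ _ _ _ _ _ => one_pos⟩

theorem adm_sLam {T : Thr} {s : Scl} {Lam : ℝ} (hL : 1 ≤ Lam) (h : Adm T s) :
    Adm T (sLam Lam s) := by
  have h0 : 0 < Lam := by linarith
  refine ⟨h.ρ, h.π, h.κ, h.ε, h.ζ, ?_, ?_⟩
  · exact div_pos h.θ.1 h0
  · exact (div_le_self h.θ.1.le hL).trans h.θ.2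

theorem outx (hTS : Stmt_TSPLIT.{u}) (hBR : Stmt_BRX.{u}) (hCF : Stmt_CFG.{u})
    (hOX : Stmt_OXB2.{u}) (hOW : Stmt_OWNG2.{u}) (hC : Stmt_OXC.{u}) (hD : Stmt_OXD.{u})
    (hE : Stmt_OXE.{u}) : Stmt_OUTX.{u} := by
  intro πk h1 h2
  have hp : 0 < 1 - 3 * πk := by linarith
  obtain ⟨ε₀, C₀, hε₀, hε₀1, hC₀, hC⟩ := hC
  obtain ⟨sO, a0, hsO, ha0, hOW⟩ := hOW
  obtain ⟨c, CC, hc, hc1, hCC, hTS⟩ := hTS πk h1 h2
  obtain ⟨a, ha, haa0, has, has1⟩ : ∃ a : ℝ, 0 < a ∧ a ≤ a0 ∧ 10 * sO * a ≤ ε₀ ∧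
      10 * sO * a ≤ 1 / 1000 := by
    have h3 : 0 < 10 * sO := by linarith
    refine ⟨min a0 (min (ε₀ / (10 * sO)) (1 / 1000 / (10 * sO))), ?_, min_le_left _ _, ?_, ?_⟩
    · exact lt_min ha0 (lt_min (by positivity) (by positivity))
    · calc 10 * sO * min a0 (min (ε₀ / (10 * sO)) (1 / 1000 / (10 * sO))) ≤
          10 * sO * (ε₀ / (10 * sO)) := mul_le_mul_of_nonneg_left
            ((min_le_right _ _).trans (min_le_left _ _)) h3.le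
        _ = ε₀ := by field_simp
    · calc 10 * sO * min a0 (min (ε₀ / (10 * sO)) (1 / 1000 / (10 * sO))) ≤
          10 * sO * (1 / 1000 / (10 * sO)) := mul_le_mul_of_nonneg_left
            ((min_le_right _ _).trans (min_le_right _ _)) h3.le
        _ = 1 / 1000 := by field_simp
  have haa1 : a ≤ 10 * sO * a := by nlinarith
  have ha1 : a ≤ 1 / 1000 := haa1.trans has1
  obtain ⟨CD, hCDe⟩ : ∃ CD : ℝ, CD = 200 / (1 - 3 * πk) := ⟨_, rfl⟩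
  have hCD4 : 4 ≤ CD := by
    rw [hCDe, le_div_iff₀ hp]
    linarith
  obtain ⟨C, hCCD, hCCC⟩ : ∃ C : ℝ, CD ≤ C ∧ CC ≤ C := ⟨max CD CC, le_max_left _ _,
    le_max_right _ _⟩
  obtain ⟨υ, hυe⟩ : ∃ υ : ℝ, υ = (1 - 3 * πk) / 10 ^ 7 := ⟨_, rfl⟩
  have hυ : 0 < υ := by rw [hυe]; positivity
  have hυ1 : υ ≤ 1 / 100 := by
    rw [hυe, div_le_div_iff₀ (by norm_num) (by norm_num)]
    linarith
  obtain ⟨εE, hεE, hE⟩ := hE πk CD υ h1 h2 (by linarith) hυ hυ1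
  obtain ⟨ε, hε, hεE', hε1⟩ : ∃ ε : ℝ, 0 < ε ∧ ε ≤ εE ∧ ε ≤ 1 :=
    ⟨min εE 1, lt_min hεE one_pos, min_le_left _ _, min_le_right _ _⟩
  obtain ⟨C3, hC3, hD⟩ := hD ε₀ C₀ C 2 ε hε₀ hε₀1 hC₀ (by linarith) two_pos hε hε1
  obtain ⟨C1, hC1, hOX⟩ := hOX a (1 / 4) ha (by linarith) (by norm_num) (by norm_num)
  obtain ⟨eC, εC, heC, hεC, hεC1, hC⟩ := hC a (10 * sO * a) C C1 (ε / 4) ha haa1
    (by linarith) has (by linarith) hC1 (by linarith) (by linarith)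
  obtain ⟨eO, heO, heOC, heOε, heO4⟩ : ∃ eO : ℝ, 0 < eO ∧ eO ≤ eC ∧ eO ≤ εC ∧ eO ≤ ε / 4 :=
    ⟨min (min eC εC) (ε / 4), lt_min (lt_min heC hεC) (by linarith),
      (min_le_left _ _).trans (min_le_left _ _), (min_le_left _ _).trans (min_le_right _ _),
      min_le_right _ _⟩
  obtain ⟨eG, heG, hOW⟩ := hOW a C C1 eO ha haa0 (by linarith) (by linarith) hC1 heO
  obtain ⟨e', he', he'C, he'G⟩ : ∃ e' : ℝ, 0 < e' ∧ e' ≤ eC ∧ e' ≤ eG :=
    ⟨min eC eG, lt_min heC heG, min_le_left _ _, min_le_right _ _⟩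
  obtain ⟨ε1, hε1p, hε1C, hε1G, hε1ε, hε11⟩ : ∃ ε1 : ℝ, 0 < ε1 ∧ ε1 ≤ εC ∧ ε1 ≤ eG ∧
      ε1 ≤ ε / 4 ∧ ε1 ≤ 1 := by
    refine ⟨min (min εC eG) (min (ε / 4) 1), ?_, ?_, ?_, ?_, ?_⟩
    · exact lt_min (lt_min hεC heG) (lt_min (by linarith) one_pos)
    · exact (min_le_left _ _).trans (min_le_left _ _)
    · exact (min_le_left _ _).trans (min_le_right _ _)
    · exact (min_le_right _ _).trans (min_le_left _ _)
    · exact (min_le_right _ _).trans (min_le_right _ _)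
  have hCO : 1 ≤ 4 / c := by
    rw [le_div_iff₀ hc]
    linarith
  obtain ⟨MS, δ, β, hMS, hδ, hβ, hOX⟩ := hOX e' ε1 (4 / c) he' hε1p hε11 hCO
  obtain ⟨Q, hQe⟩ : ∃ Q : ℝ, Q = 4 * (3 * MS) + 1 := ⟨_, rfl⟩
  have hQ1 : 1 ≤ Q := by linarith
  obtain ⟨C', hC'e⟩ : ∃ C' : ℝ, C' = 20 + 8 * (Q * CD) + C := ⟨_, rfl⟩
  have hQCD : 0 ≤ Q * CD := by positivity
  have hCC' : C ≤ C' := by linarith
  have hC'0 : 0 < C' := by linarith
  obtain ⟨ρ0, hρ0, hρβ, hρε1, hρC', hρ01, hρε⟩ : ∃ ρ0 : ℝ, 0 < ρ0 ∧ ρ0 ≤ β ∧ ρ0 ≤ ε1 / 1000 ∧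
      4000 * C' ^ 2 * ρ0 ≤ ε ∧ ρ0 ≤ 1 ∧ ρ0 ≤ ε := by
    refine ⟨min (min β (ε1 / 1000)) (min (ε / (4000 * C' ^ 2)) (min 1 ε)), ?_, ?_, ?_, ?_, ?_, ?_⟩
    · exact lt_min (lt_min hβ (by positivity)) (lt_min (by positivity) (lt_min one_pos hε))
    · exact (min_le_left _ _).trans (min_le_left _ _)
    · exact (min_le_left _ _).trans (min_le_right _ _)
    · calc 4000 * C' ^ 2 * min (min β (ε1 / 1000)) (min (ε / (4000 * C' ^ 2)) (min 1 ε)) ≤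
          4000 * C' ^ 2 * (ε / (4000 * C' ^ 2)) := mul_le_mul_of_nonneg_left
            ((min_le_right _ _).trans (min_le_left _ _)) (by positivity)
        _ = ε := by field_simp
    · exact (min_le_right _ _).trans ((min_le_right _ _).trans (min_le_left _ _))
    · exact (min_le_right _ _).trans ((min_le_right _ _).trans (min_le_right _ _))
  obtain ⟨θT, rr, hθT, hrr, hTS⟩ := hTS Q (ρ0 / 2) MS hQ1 (by linarith) hMS
  obtain ⟨κA, dB, hκA, hκA1, hBR⟩ := hBR πk MS δ β ρ0 Q c h1 h2 hMS hδ hβ hρ0 hρ01 hQ1 hc hc1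
  obtain ⟨κB, hκB, hκBA, hκB2⟩ : ∃ κB : ℝ, 0 < κB ∧ κB ≤ κA ∧ κB ≤ 1 / 2 :=
    ⟨min κA (1 / 2), lt_min hκA (by norm_num), min_le_left _ _, min_le_right _ _⟩
  have hκB1 : κB ≤ 1 := by linarith
  obtain ⟨LamE, θE, TE, hLamE, hθE, hTE, hE⟩ := hE ε C3 hε hεE' hC3 Q hQ1
  -- the loss
  have hκx : 0 < min θT (min κB (1 / 100)) := lt_min hθT (lt_min hκB (by norm_num))
  obtain ⟨Lam, hLE, hL2⟩ : ∃ Lam : ℝ, LamE ≤ Lam ∧ 1 / min θT (min κB (1 / 100)) ≤ Lam :=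
    ⟨max LamE (1 / min θT (min κB (1 / 100))), le_max_left _ _, le_max_right _ _⟩
  have hL1 : 1 ≤ Lam := hLamE.trans hLE
  have hL0 : 0 < Lam := by linarith
  have hηall : ∀ η : ℝ, 0 < η → η ≤ 1 → η / Lam ≤ θT ∧ η / Lam ≤ κB ∧ η / Lam ≤ 1 / 100 := by
    intro η hη hη1
    have h3 : η / Lam ≤ min θT (min κB (1 / 100)) := by
      rw [div_le_iff₀ hL0]
      rw [div_le_iff₀ hκx] at hL2
      linarith
    exact ⟨h3.trans (min_le_left _ _), h3.trans ((min_le_right _ _).trans (min_le_left _ _)),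
      h3.trans ((min_le_right _ _).trans (min_le_right _ _))⟩
  refine ⟨3 * MS, min κB (1 / 8), Lam, min θT (min θE κB), a / 800, rr, by linarith,
    lt_min hκB (by norm_num), min_le_right _ _, hL1, lt_min hθT (lt_min hθE hκB), by positivity,
    by linarith, hrr, ?_⟩
  rw [← hQe]
  intro g z θk η τ e M hg hg1 hz hz1 hθk hθk1 hη hη1 hτ hτe
  have hηL : 0 < η / Lam := by positivity
  obtain ⟨hη2, hη3, hη4⟩ := hηall η hη hη1
  obtain ⟨TT, hTT, hTS⟩ := hTS g z θk (η / Lam) M hg hg1 hz hz1 hθk hθk1 hηL hη2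
  obtain ⟨TC, hTC, hCF⟩ := hCF τ (e / 8) hτ (by linarith)
  have hκ4 : 0 < min κB (1 / 4) := lt_min hκB (by norm_num)
  refine ⟨TT.inf (TC.inf (TE.inf (Tz (min κB (1 / 4))))),
    Thr.inf_pos hTT (Thr.inf_pos hTC (Thr.inf_pos hTE (Tz_pos hκ4))), ?_⟩
  intro J S ρS c' hS hρS hc'
  have hST : ∀ s, Adm TT (sLam Lam (S s)) := fun s => adm_sLam hL1 (hS s).inl
  have hSC : ∀ s, Adm TC (sLam Lam (S s)) := fun s => adm_sLam hL1 (hS s).inr.inl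
  have hSE : ∀ s, Adm TE (S s) := fun s => (hS s).inr.inr.inl
  have hSz : ∀ s, Adm (Tz (min κB (1 / 4))) (S s) := fun s => (hS s).inr.inr.inr
  have hζ1 : ∀ s, (S s).ζ ≤ κB := fun s => (hSz s).ζ.2.trans (min_le_left _ _)
  have hζ2 : ∀ s, (S s).ζ ≤ 1 / 4 := fun s => (hSz s).ζ.2.trans (min_le_right _ _)
  have hθp : ∀ s, 0 < (S s).θ := fun s => (hSz s).θ.1
  obtain ⟨d1, hTS⟩ := hTS J (fun s => sLam Lam (S s)) ρS c' hST hρS hc'
  obtain ⟨d2, hCF⟩ := hCF J (fun s => sLam Lam (S s)) c' hSC hc'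
  obtain ⟨ε2, hε2, hε2η, hε2θ⟩ := low_fin (fun s => (S s).θ / Lam)
    (fun s => div_pos (hθp s) hL0) (η / Lam) hηL
  obtain ⟨ρ2, hρ2, hρ20, hρ2ε⟩ : ∃ ρ2 : ℝ, 0 < ρ2 ∧ ρ2 ≤ ρ0 ∧ 16 * ρ2 ≤ ε2 :=
    ⟨min ρ0 (ε2 / 16), lt_min hρ0 (by positivity), min_le_left _ _, by
      have := min_le_right ρ0 (ε2 / 16)
      linarith⟩
  obtain ⟨d3, hOX⟩ := hOX ρ0 ρ2 C C' hρ2 hρ20 hρβ hρε1 (by linarith) hCC'
  obtain ⟨d4, hOW⟩ := hOW MS δ β (1 / 4) C' ρ0 ρ2 hρ0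
  obtain ⟨d5, hC⟩ := hC MS δ β (1 / 4) C' 2 ρ0 ρ2 hρ0
  obtain ⟨d6, hD⟩ := hD a (10 * sO * a) MS δ β (1 / 4) C' ρ0 ρ2 (ε / 4) ε2 ha haa1 (by linarith)
    (by linarith) le_rfl hρ0 hρC' hε2 hρ2ε
  have hLL : ∀ x : ℝ, 0 < x → x / Lam ≤ x / LamE := fun x hx =>
    div_le_div_of_nonneg_left hx.le (by linarith) hLE
  obtain ⟨d7, hE⟩ := hE J S a η ε2 hSE ha (by linarith) hη hη1 hε2
    (fun s => (hε2θ s).trans (hLL _ (hθp s))) (hε2η.trans (hLL _ hη))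
  obtain ⟨d8, hN⟩ := nums.{u} πk a h1 h2 ha (by linarith)
  obtain ⟨d9, hLg⟩ := large κB a c' (min z (g / 2)) MS hκB hκB1 ha (by linarith) hc'
    (lt_min hz (by positivity)) hMS
  refine ⟨d1 + d2 + d3 + d4 + d5 + d6 + d7 + d8 + d9 + dB, ?_⟩
  intro V _ N G d X θ' aC gC ζc Cs hd hθ' haC haC1 hgC hgC1 hζc hCl hX1 hX2 hLk
  obtain ⟨hd1, haCB, ht1, ht2, ht3, hsp1, hsp2, hsp3⟩ := hLg d (by omega) aC gC haC haC1 hgC hgC1
  obtain ⟨P, D, r, cl, hPd, hNm, hSh, hrr', hrd⟩ := hN d (by omega)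
  have hθ'T : θ' ≤ θT := hθ'.trans (min_le_left _ _)
  have hθ'E : θ' ≤ θE := hθ'.trans ((min_le_right _ _).trans (min_le_left _ _))
  have hθ'B : θ' ≤ κB := hθ'.trans ((min_le_right _ _).trans (min_le_right _ _))
  have hd1r : (1 : ℝ) ≤ d := by exact_mod_cast hd1
  have hgC0 : 0 < gC := lt_of_lt_of_le (Real.rpow_pos_of_pos (by linarith) _) hgC
  obtain ⟨t, hte⟩ : ∃ t : ℝ, t = κB * gC ^ 2 := ⟨_, rfl⟩
  rw [← hte] at ht1 ht2 ht3
  have ht0 : 0 < t := by rw [hte]; positivity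
  obtain ⟨X', H, Ex, hSame, hX', hTs⟩ := hTS G d X D θ' t (by omega) hθ'T hX1 hX2 hLk.hk hLk.v0n
    hSh ht1 ht2
  obtain ⟨hk', hvh'⟩ := same_lko hSame hLk
  have hζb : ∀ s, (sLam Lam (S s)).ζ ≤ κB := hζ1
  have hζb' : ∀ s, (sLam Lam (S s)).ζ ≤ 1 / 4 := hζ2
  have hd0 : (0 : ℝ) ≤ d := by linarith
  have hgC2 : gC ^ 2 ≤ 1 := pow_le_one₀ hgC0.le hgC1
  have htA : t ≤ κA * gC ^ 2 := by
    rw [hte]
    exact mul_le_mul_of_nonneg_right hκBA (by positivity)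
  have ht12 : t ≤ 1 / 2 := by
    rw [hte]
    calc κB * gC ^ 2 ≤ κB * 1 := mul_le_mul_of_nonneg_left hgC2 hκB.le
      _ = κB := mul_one _
      _ ≤ 1 / 2 := hκB2
  -- the classes
  obtain ⟨Y, iY, Gh, A, Ex', nd, e1, e2, hCls⟩ := hBR G d X' D r H Ex (fun s => sLam Lam (S s)) M
    g z θk θ' (η / Lam) ((d : ℝ) ^ (-c')) a t t CC ζc aC gC Cs (by omega) hθk1 hηL.le
    (hη3.trans hκBA) (hθ'B.trans hκBA) (fun s => (hζb s).trans hκBA) hζc haC (haCB.trans hκBA)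
    hgC0 hgC1 ht0.le htA ht0.le htA hX' hk'
    (fun Q hQ => (hvh' Q hQ).trans (mul_le_mul_of_nonneg_right
      ((min_le_left _ _).trans hκBA) hd0)) hCl hSh hTs hrr' hrd
  rw [← hCDe] at hCls hNm
  replace hCls := cls_mono hCls hCCD (show 20 + 8 * (Q * CD) ≤ C' by linarith)
  -- conflicts
  obtain ⟨Cf, Yc, iYc, Z, hCfG, hCfO⟩ := hCF G d X' Q g z θk θ' (η / Lam) M (by omega) hX'.toPcD
  have hDd : ∀ κ, D κ ≤ d := fun κ => (hCls.Dd κ).1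
  have hrD : ∀ κ, r κ ≤ D κ := fun κ => by
    have := hNm.cr κ
    omega
  have hco := co_cond hX'.toPcD hηL.le hη4 hθk1 hζb' hk' hc ht12 hDd hTs
  have hHE : ∀ κ, H κ ≤ Erx G X' := fun κ v w hvw => hTs.HG κ v w hvw
  have hHE' : ∀ κ, (H κ).map (Function.Embedding.inl : V ↪ V ⊕ Y) ≤
      (Erx G X').map (Function.Embedding.inl : V ↪ V ⊕ Y) := by
    intro κ p q hpq
    obtain ⟨v, w, rfl, rfl, h3⟩ := adj_map hpq
    exact adj_inl.2 (hHE κ h3)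
  have hEW : ∀ p q, ((Erx G X').map (Function.Embedding.inl : V ↪ V ⊕ Y)).Adj p q →
      p ∈ (univ : Finset V).map (Function.Embedding.inl : V ↪ V ⊕ Y) := by
    intro p q hpq
    obtain ⟨v, w, rfl, rfl, h3⟩ := adj_map hpq
    exact mem_inl.2 (mem_univ _)
  -- reserves and matchings
  obtain ⟨S', K, Exc, L, N0, Nn, hL2', hLd, hRes, hKrn, hFlw, hM0, hM1⟩ := hOX P cl
    (fun j => (H j).map (Function.Embedding.inl : V ↪ V ⊕ Y)) Gh
    ((OV X').map (Function.Embedding.inl : V ↪ V ⊕ Y))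
    ((univ : Finset V).map (Function.Embedding.inl : V ↪ V ⊕ Y))
    ((Uo G X' d).map (Function.Embedding.inl : V ↪ V ⊕ Y)) A Ex' nd prx d D r t (by omega) ht3 ht2
    hCls hNm.cr (fun j p hp hpU => co_lift _ hco hc j p hp hpU)
  -- own colours
  have hmis : ∀ v, Ow G X' d v → (d : ℝ) ^ (2 - a / 100) ≤ ((mis G (nb G v)).card : ℝ) := by
    intro v hv
    refine hsp3 _ (sparse G d (3 * MS) ζc aC gC (min z (g / 2)) (min κB (1 / 8)) Cs X hX1.reg hCl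
      hLk (by omega) (by linarith) hgC0.le hsp1 hsp2 v ?_)
    have h3 := hv.1
    rw [hSame.V0] at h3
    exact h3
  obtain ⟨cc, hOwn, hCfc, hcap⟩ := hOW P cl
    ((Erx G X').map (Function.Embedding.inl : V ↪ V ⊕ Y))
    (Cf.map (Function.Embedding.inl : V ↪ V ⊕ Y))
    (fun j => (H j).map (Function.Embedding.inl : V ↪ V ⊕ Y)) Gh S'
    ((OV X').map (Function.Embedding.inl : V ↪ V ⊕ Y))
    ((univ : Finset V).map (Function.Embedding.inl : V ↪ V ⊕ Y))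
    ((Uo G X' d).map (Function.Embedding.inl : V ↪ V ⊕ Y)) K A Ex' Exc nd prx d D r t L N0 Nn
    (fun y => (Z y).map (Function.Embedding.inl : V ↪ V ⊕ Y)) (by omega) hCls hNm.cr hNm.sum
    (Finset.map_subset_map.2 Uo_sub) (deg_lift hX'.reg) (fun p hp => deg_lift' hX'.reg p hp)
    hEW hHE' (fun p hp => mis_lift hmis p hp) (fun p q hpq => by
      obtain ⟨v, w, rfl, rfl, h3⟩ := adj_map hpq
      exact mem_inl.2 (mem_Uo.2 (hCfG.ow v w h3).1))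
    (fun p => cf_lift _ hCfG p) (cap_map hCfG.cap) hRes
    (fun j => MP_db9399_ox.helper68.Krn_mono (hKrn j) he'G)
    (fun j => flw_mono (hFlw j) (mul_le_mul_of_nonneg_right he'G hd0))
    (mt0_mono hM0 hε1G hrD) hM1
  -- engine
  have hNo := noCls_lift (Y := Y) hTs.uO hCCC
  obtain ⟨Km, F, hOut⟩ := hC P cl
    ((Erx G X').map (Function.Embedding.inl : V ↪ V ⊕ Y))
    (fun j => (H j).map (Function.Embedding.inl : V ↪ V ⊕ Y)) Gh S'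
    ((OV X').map (Function.Embedding.inl : V ↪ V ⊕ Y))
    ((univ : Finset V).map (Function.Embedding.inl : V ↪ V ⊕ Y))
    ((Uo G X' d).map (Function.Embedding.inl : V ↪ V ⊕ Y)) K A Ex' Exc nd prx d D r t L N0 Nn cc
    (by omega) hCls hNm.cr hPd (deg_lift hX'.reg) hEW hHE'
    hNo
    hL2' hLd hRes (fun j => MP_db9399_ox.helper68.Krn_mono (hKrn j) he'C)
    (mt0_mono hM0 hε1C hrD) hM1 (own1_mono hOwn heOC heOε)
  -- dummies
  obtain ⟨f, hf, hRl⟩ := hD P cl (Erx G X') H Gh S' (OV X') (Uo G X' d) K Km A Ex' Exc nd prx d D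
    r t L N0 Nn F cc (by omega) hCls hNm.cr hHE hRes (mt0_mono hM0 hε1ε hrD) hM1
    (own1_mono hOwn (by linarith) heO4) hOut
  have hnd : (fun j v => nd j (Sum.inl v)) = ndx X' := by
    funext j v
    exact e1 j v
  rw [hnd] at hRl
  -- own colours as numbers
  have hdom : ∀ v, cc (Sum.inl v) ≠ none ↔ Ow G X' d v := fun v =>
    (hOwn.dom (Sum.inl v)).trans (mem_inl.trans mem_Uo)
  have hOwP := owp_of (P := P) (cc := fun v => cc (Sum.inl v)) (Z := Z) hdom hPd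
    (fun v w hvw h3 => hOwn.cp (Sum.inl v) (Sum.inl w) (adj_inl.2 hvw) h3) hCfG
    (fun v w hvw => hCfc (Sum.inl v) (Sum.inl w) (adj_inl.2 hvw))
    (fun y b => cap_inl (fun v hv h3 => Finset.mem_filter.2 ⟨mem_inl.2 hv, h3⟩) (hcap y b)) hCfO
  have hOwP' : OwP τ (e / 8) (1 / 250) S G d X' (ccv fun v => cc (Sum.inl v)) (Ow G X' d) :=
    ⟨hOwP.clt, hOwP.cc, hOwP.big, hOwP.sml, hOwP.dif, hOwP.non⟩
  have hXE : PcX Q g z θk θ' (η / LamE) ((d : ℝ) ^ (-c')) M (fun s => sLam LamE (S s)) G d X' :=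
    pcx_mono hX' le_rfl (hLL η hη) (fun _ => rfl) (fun _ => rfl) (fun _ => rfl)
      (fun s => hLL _ (hθp s))
  have hXS : PcX Q g z θk θ' η ((d : ℝ) ^ (-c')) M S G d X' :=
    pcx_mono hX' le_rfl (div_le_self hη.le hL1) (fun _ => rfl) (fun _ => rfl) (fun _ => rfl)
      (fun s => div_le_self (hθp s).le hL1)
  obtain ⟨A', tt, mm, hPal, hPre⟩ := hE G d P X' D r cl H Ex
    (fun j i => (nsd (nd j) i false).card) (fun v => cc (Sum.inl v)) f g z θk θ'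
    ((d : ℝ) ^ (-c')) c t CC (ρ0 / 2) MS τ (e / 8) M (by omega) hXE hg hθk1 hθ'E hk' hNm hTs
    (by linarith) (by linarith) (fun κ i => by
      rw [e2 κ i false]
      exact mG_le κ i) hdom hRl hOwP'
  rw [hυe] at hPre
  exact ⟨X', A', tt, _, mm, hSame, hXS, hk', hPal, prex4_of h1 h2 hPre⟩

end Pool.Agent.Work.MP_db9399_outx
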