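import Pool.Agent.Work.MP_db9399_brx_helper75.BRX

/-!
# MP_db9399, OUTX (helper72): vertices of `O` which get no own colour have many light neighbours

Covering vertices (type B) and heavy members of the pieces of type K: in every class a constant
proportion of their edges goes to light vertices.
-/

set_option autoImplicit false
set_option linter.unusedSectionVars false

namespace Pool.Agent.Work.MP_db9399_outx

open Finset hiding box
open Classical
open Pool.Agent.Work.MP_db9399_all (nb)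
open Pool.Agent.Work.MP_db9399_da
open Pool.Agent.Work.MP_db9399_xf
open Pool.Agent.Work.MP_db9399_sg (nsd)
open Pool.Agent.Work.MP_db9399_iv
open Pool.Agent.Work.MP_db9399_clj.helper75
open Pool.Agent.Work.MP_db9399_brx.helper75

universe u

variable {V : Type u} [Fintype V] {N J : ℕ} {X : XD V N J}
  {C g z θk θ' η a : ℝ} {M : ℕ} {S : Fin J → Scl} {G : SimpleGraph V} {d : ℕ}

/-- the sides of the pieces of type B are large -/
theorem side_lo (hX : PcD C g z θk θ' η a M S G d X) {n : Fin N} (hB : X.P.ty n = Ty.B) (β : Bool) :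
    (1 - (S (X.sc n)).ζ) * d ≤ ((sV X.P n β).card : ℝ) := by
  obtain ⟨v, hv⟩ := hX.bN n hB
  unfold pV at hv
  rw [mem_filter] at hv
  obtain ⟨-, hv0, hvn⟩ := hv
  have h1 := hX.thd v (Or.inr ⟨hv0, by rw [hvn]; exact hB⟩)
  rw [hvn] at h1
  have h2 : nb G v ⊆ nb (thin G X.P) v ∪ sV X.P n (!X.P.sd v) := by
    intro w hw
    rw [mem_nb'] at hw
    rw [mem_union, mem_nb']
    by_cases h3 : (bulk G X.P).Adj v w
    · right
      unfold sV
      rw [mem_filter]
      refine ⟨mem_univ _, h3.2.2.1, by rw [← h3.2.2.2.1, hvn], ?_⟩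
      have h4 := h3.2.2.2.2 (by rw [hvn]; exact hB)
      revert h4
      cases X.P.sd v <;> cases X.P.sd w <;> simp
    · exact Or.inl ⟨hw, h3⟩
  have h3 := (card_le_card h2).trans (card_union_le _ _)
  rw [hX.reg v] at h3
  have h4 : (d : ℝ) ≤ (nb (thin G X.P) v).card + (sV X.P n (!X.P.sd v)).card := by
    exact_mod_cast h3
  have h5 : (sV X.P n (!X.P.sd v)).card = (sV X.P n β).card := by
    have h6 := hX.bE n hB
    cases X.P.sd v <;> cases β
    · exact h6.symm
    · rfl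
    · rfl
    · exact h6
  rw [h5] at h4
  linarith

/-- many neighbours in one block -/
theorem big_blk (hX : PcD C g z θk θ' η a M S G d X) (hη : 0 ≤ η) (hη1 : η ≤ 1 / 100)
    (hθk : θk ≤ 1 / 100) (hζ : ∀ s, (S s).ζ ≤ 1 / 4) (hk : ∀ v ∈ X.Hv, InT X Ty.K v)
    {x : V} (hx : x ∈ OV X) (hxo : ¬ Ow G X d x) :
    ∃ b : BX X, (d : ℝ) / 2 ≤ nB G (blx X) x b := by
  have hd0 : (0 : ℝ) ≤ d := Nat.cast_nonneg _
  unfold OV at hx
  rw [mem_filter] at hx
  have hx1 := hx.2
  unfold InO at hx1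
  by_cases hx0 : x ∈ X.P.V0
  · -- covering
    have hc : Cov G X d x := by
      by_contra h
      exact hxo ⟨hx0, h⟩
    obtain ⟨n, β, -, hB, hc⟩ := hc
    obtain ⟨b, hb⟩ := bx_ne (X := X) (n := n) (s := β) (by rw [hB]; decide)
    rw [bx_iff] at hb
    refine ⟨b, ?_⟩
    have h1 := side_lo hX hB β
    have h2 : sV X.P n β ⊆ blk (blx X) b := by
      intro v hv
      unfold sV at hv
      rw [mem_filter] at hv
      obtain ⟨-, h3, h4, h5⟩ := hv
      unfold blk
      rw [mem_filter, blx_iff]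
      refine ⟨mem_univ _, ?_, by rw [hb.1, h4], fun _ => by rw [hb.2 hB, h5]⟩
      rintro (h6 | h6)
      · exact h3 h6
      · have h7 := (hk v h6).2
        rw [h4, hB] at h7
        cases h7
    have h3 : ((sV X.P n β).card : ℝ) ≤ nB G (blx X) x b + ((sV X.P n β \ nb G x).card : ℝ) := by
      unfold nB
      have h4 : sV X.P n β ⊆ (nb G x ∩ blk (blx X) b) ∪ (sV X.P n β \ nb G x) := by
        intro v hv
        rw [mem_union, mem_inter, mem_sdiff]
        by_cases h5 : v ∈ nb G x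
        · exact Or.inl ⟨h5, h2 hv⟩
        · exact Or.inr ⟨hv, h5⟩
      exact_mod_cast (card_le_card h4).trans (card_union_le _ _)
    have h4 := mul_le_mul_of_nonneg_right (hζ (X.sc n)) hd0
    linarith
  · -- heavy
    have hxH : x ∈ X.Hv := hx1.resolve_left hx0
    have hxK := hk x hxH
    obtain ⟨b, hb⟩ := bx_ne (X := X) (n := X.P.pc x) (s := false) (by rw [hxK.2]; decide)
    rw [bx_iff] at hb
    refine ⟨b, ?_⟩
    have h1 := hX.kd x hxK
    have h2 := hX.kh _ hxK.2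
    have h3 := hX.kU _ hxK.2
    have h4 : nb G x ∩ pV X.P (X.P.pc x) ⊆ (nb G x ∩ blk (blx X) b) ∪
        (pV X.P (X.P.pc x) ∩ X.Hv) := by
      intro v hv
      rw [mem_inter] at hv
      rw [mem_union, mem_inter, mem_inter]
      by_cases h5 : v ∈ X.Hv
      · exact Or.inr ⟨hv.2, h5⟩
      · left
        refine ⟨hv.1, ?_⟩
        have h6 := hv.2
        unfold pV at h6
        rw [mem_filter] at h6
        unfold blk
        rw [mem_filter, blx_iff]
        refine ⟨mem_univ _, ?_, by rw [hb.1, h6.2.2], fun h7 => ?_⟩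
        · rintro (h7 | h7)
          · exact h6.2.1 h7
          · exact h5 h7
        · rw [h6.2.2, hxK.2] at h7
          cases h7
    have h5 : ((nb G x ∩ pV X.P (X.P.pc x)).card : ℝ) ≤ nB G (blx X) x b +
        ((pV X.P (X.P.pc x) ∩ X.Hv).card : ℝ) := by
      unfold nB
      exact_mod_cast (card_le_card h4).trans (card_union_le _ _)
    have h6 : η * (pV X.P (X.P.pc x)).card ≤ 1 / 100 * (2 * d) := by
      refine mul_le_mul hη1 (h3.trans ?_) (Nat.cast_nonneg _) (by norm_num)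
      nlinarith
    nlinarith

/-- **The condition for (F).** -/
theorem co_cond {c t CC ρ1 MS : ℝ} {D : Cx.{u} → ℕ} {H : Cx.{u} → SimpleGraph V}
    {Ex : Cx.{u} → Finset V} (hX : PcD C g z θk θ' η a M S G d X) (hη : 0 ≤ η)
    (hη1 : η ≤ 1 / 100) (hθk : θk ≤ 1 / 100) (hζ : ∀ s, (S s).ζ ≤ 1 / 4)
    (hk : ∀ v ∈ X.Hv, InT X Ty.K v) (hc : 0 < c) (ht : t ≤ 1 / 2) (hD : ∀ κ, D κ ≤ d)
    (hT : TsX c t CC ρ1 MS G d X D H Ex) (κ : Cx.{u}) (x : V) (hx : x ∈ OV X)
    (hxo : ¬ Ow G X d x) : (D κ : ℝ) ≤ 4 / c * ((nb (H κ) x \ OV X).card : ℝ) := by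
  have hd0 : (0 : ℝ) ≤ d := Nat.cast_nonneg _
  obtain ⟨b, hb⟩ := big_blk hX hη hη1 hθk hζ hk hx hxo
  obtain ⟨p, hp⟩ := (blx_ok hX.reg hX.emp (hT.HG κ) (hT.typ κ)).bex b
  have h1 := (hT.shr κ).f1 x (by rw [OO_blx hX.emp]; exact hx) p b hp
  have h2 : nb (H κ) x ∩ nsd (ndx X κ) p.1 p.2 ⊆ nb (H κ) x \ OV X := by
    intro v hv
    rw [mem_inter, Pool.Agent.Work.MP_db9399_brx.helper75.mem_nsd, ndx_iff] at hv
    rw [mem_sdiff]
    refine ⟨hv.1, fun h3 => hv.2.1 (Or.inl ?_)⟩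
    unfold OV at h3
    rw [mem_filter] at h3
    exact h3.2
  have h3 : ((nb (H κ) x ∩ nsd (ndx X κ) p.1 p.2).card : ℝ) ≤ ((nb (H κ) x \ OV X).card : ℝ) := by
    exact_mod_cast card_le_card h2
  have h4 : c * ((d : ℝ) / 2) ≤ c * nB G (blx X) x b := mul_le_mul_of_nonneg_left hb hc.le
  have h5 : c * t * d / 2 ≤ c * d / 4 := by
    have h6 : t * d ≤ 1 / 2 * d := mul_le_mul_of_nonneg_right ht hd0
    have h7 := mul_le_mul_of_nonneg_left h6 hc.le
    linarith
  have h6 : (D κ : ℝ) ≤ d := by exact_mod_cast hD κ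
  rw [div_mul_eq_mul_div, le_div_iff₀ hc]
  have h7 : (D κ : ℝ) * c ≤ d * c := mul_le_mul_of_nonneg_right h6 hc.le
  linarith

end Pool.Agent.Work.MP_db9399_outx
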