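import Pool.Agent.Work.MP_db9399_outx.Stmt

/-! # MP_db9399, OUTX: the neighbourhoods of the vertices of `V0` are sparse (helper72) -/

set_option autoImplicit false

namespace Pool.Agent.Work.MP_db9399_outx

open Finset Classical
open Pool.Agent.Work.MP_db9399_all (nb mis)
open Pool.Agent.Work.MP_db9399_da
open Pool.Agent.Work.MP_db9399_xf
open Pool.Agent.Work.MP_db9399_xc.helper38 (Clx lgt)

universe u

theorem mem_nb' {V : Type u} [Fintype V] {G : SimpleGraph V} {v w : V} : w ∈ nb G v ↔ G.Adj v w := by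
  unfold nb
  simp

/-- sum of the outer degrees of a neighbourhood -/
theorem sum_out {V : Type u} [Fintype V] (G : SimpleGraph V) (d : ℕ)
    (hreg : ∀ v, (nb G v).card = d) (v : V) :
    ∑ w ∈ nb G v, (nb G w \ nb G v).card = d + (mis G (nb G v)).card := by
  obtain ⟨T, hT⟩ : ∃ T, T = nb G v := ⟨_, rfl⟩
  rw [← hT]
  have h1 : (mis G T).card = ∑ w ∈ T, (T.filter fun u => w ≠ u ∧ ¬ G.Adj w u).card := by
    unfold mis
    rw [Finset.card_filter, Finset.sum_product]
    refine Finset.sum_congr rfl fun w _ => ?_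
    rw [Finset.card_filter]
  have h2 : ∀ w ∈ T, (nb G w \ T).card = 1 + (T.filter fun u => w ≠ u ∧ ¬ G.Adj w u).card := by
    intro w hw
    have e1 : (nb G w \ T).card + (nb G w ∩ T).card = d := by
      rw [Finset.card_sdiff_add_card_inter, hreg]
    have e2 : (T.filter fun u => w ≠ u ∧ ¬ G.Adj w u).card + (nb G w ∩ T).card + 1 = d := by
      have h3 : T = insert w ((T.filter fun u => w ≠ u ∧ ¬ G.Adj w u) ∪ (nb G w ∩ T)) := by
        ext u
        rw [mem_insert, mem_union, mem_filter, mem_inter, mem_nb']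
        constructor
        · intro hu
          by_cases h4 : u = w
          · exact Or.inl h4
          · by_cases h5 : G.Adj w u
            · exact Or.inr (Or.inr ⟨h5, hu⟩)
            · exact Or.inr (Or.inl ⟨hu, Ne.symm h4, h5⟩)
        · rintro (rfl | h | h)
          · exact hw
          · exact h.1
          · exact h.2
      have h4 : w ∉ (T.filter fun u => w ≠ u ∧ ¬ G.Adj w u) ∪ (nb G w ∩ T) := by
        rw [mem_union, mem_filter, mem_inter, mem_nb']
        rintro (h | h)
        · exact h.2.1 rfl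
        · exact G.loopless.irrefl w h.1
      have h5 : Disjoint (T.filter fun u => w ≠ u ∧ ¬ G.Adj w u) (nb G w ∩ T) := by
        rw [Finset.disjoint_left]
        intro u hu hu'
        rw [mem_filter] at hu
        rw [mem_inter, mem_nb'] at hu'
        exact hu.2.2 hu'.1
      have h6 := congrArg Finset.card h3
      rw [Finset.card_insert_of_notMem h4, Finset.card_union_of_disjoint h5, hT, hreg, ← hT] at h6
      omega
    omega
  rw [Finset.sum_congr rfl h2, Finset.sum_add_distrib, h1, Finset.sum_const, smul_eq_mul, mul_one,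
    hT, hreg]

theorem sparse {V : Type u} [Fintype V] {N J : ℕ} (G : SimpleGraph V) (d : ℕ)
    (Mc ζc a gg z0 κ : ℝ) (Cs : Finset (Finset V)) (X : XD V N J)
    (hreg : ∀ v, (nb G v).card = d) (hC : Clx G d Mc ζc a gg Cs) (hL : LkO z0 κ G d Cs X)
    (hd : 0 < d) (hM : 1 ≤ Mc) (hg : 0 ≤ gg) (ha1 : 50 * Mc * a ^ 2 < 1)
    (ha2 : 4 * a ^ 3 < z0) (v : V) (hv : v ∈ X.P.V0) :
    gg * (d : ℝ) ^ 2 ≤ d + ((mis G (nb G v)).card : ℝ) := by
  by_contra hcon
  rw [not_le] at hcon
  have hdp : (0 : ℝ) < d := by exact_mod_cast hd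
  have hs : ∑ w ∈ nb G v, ((nb G w \ nb G v).card : ℝ) = d + ((mis G (nb G v)).card : ℝ) := by
    exact_mod_cast sum_out G d hreg v
  have h1 := hC.ex (nb G v) (nb G v) (by rw [hreg]; nlinarith)
    (by
      have : (0 : ℝ) ≤ (nb G v).card := Nat.cast_nonneg _
      nlinarith)
    (by
      rw [hs, hreg]
      nlinarith)
  have h2 : ((nb G v ∪ nb G v) ∩ lgt G d a (Cs.filter fun Q =>
      ((Q \ (nb G v ∪ nb G v)).card : ℝ) ≤ 4 * a ^ 3 * d)).Nonempty := by
    rw [Finset.nonempty_iff_ne_empty]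
    intro h3
    have h4 := Finset.card_sdiff_add_card_inter (nb G v ∪ nb G v) (lgt G d a (Cs.filter fun Q =>
      ((Q \ (nb G v ∪ nb G v)).card : ℝ) ≤ 4 * a ^ 3 * d))
    rw [h3, card_empty, add_zero] at h4
    rw [h4, Finset.union_self, hreg] at h1
    nlinarith
  obtain ⟨w, hw⟩ := h2
  rw [mem_inter] at hw
  have h3 := hw.2
  unfold lgt at h3
  rw [mem_filter] at h3
  obtain ⟨-, Q, hQ, -, -⟩ := h3
  rw [mem_filter, Finset.union_self] at hQ
  have h4 := hL.mz v hv Q hQ.1
  have h5 : 4 * a ^ 3 * d < z0 * d := mul_lt_mul_of_pos_right ha2 hdp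
  linarith [hQ.2]

end Pool.Agent.Work.MP_db9399_outx
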