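import Pool.Agent.Work.MP_db9399_outx.Nums
import Pool.Agent.Work.MP_db9399_outx.Sparse

/-! # MP_db9399, OUTX (helper72): large `d`, other labels -/

set_option autoImplicit false

namespace Pool.Agent.Work.MP_db9399_outx

open Finset Classical Filter Topology
open Pool.Agent.Work.MP_db9399_all (nb mis)
open Pool.Agent.Work.MP_db9399_da
open Pool.Agent.Work.MP_db9399_xf
open Pool.Agent.Work.MP_db9399_iv

universe u

theorem hneg (K b : ℝ) (hK : 0 < K) (hb : 0 < b) : ∀ᶠ d : ℕ in atTop, (d : ℝ) ^ (-b) ≤ K := by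
  filter_upwards [hmix (1 / K) 0 b hb, eventually_ge_atTop 1] with d h1 h2
  have hd : (0 : ℝ) < d := by exact_mod_cast h2
  rw [Real.rpow_zero, mul_one] at h1
  rw [Real.rpow_neg hd.le]
  have h3 : 0 < (d : ℝ) ^ b := Real.rpow_pos_of_pos hd _
  rw [inv_le_comm₀ h3 hK]
  rwa [one_div] at h1

theorem large (κB a c' z0 MS : ℝ) (hκ : 0 < κB) (hκ1 : κB ≤ 1) (ha : 0 < a) (ha1 : a ≤ 1 / 100)
    (hc : 0 < c') (hz : 0 < z0) (hMS : 1 ≤ MS) : ∃ d0 : ℕ, ∀ d : ℕ, d0 ≤ d →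
      ∀ aC gC : ℝ, 0 < aC → aC ≤ (d : ℝ) ^ (-c') → (d : ℝ) ^ (-(a / 800)) ≤ gC → gC ≤ 1 →
      1 ≤ d ∧ aC ≤ κB ∧ (d : ℝ) ^ (-(1 / 10) : ℝ) ≤ κB * gC ^ 2 ∧ κB * gC ^ 2 ≤ 1 ∧
      (d : ℝ) ^ (-(a / 200)) ≤ κB * gC ^ 2 ∧ 50 * (3 * MS) * aC ^ 2 < 1 ∧ 4 * aC ^ 3 < z0 ∧
      ∀ m : ℝ, gC * (d : ℝ) ^ 2 ≤ d + m → (d : ℝ) ^ (2 - a / 100) ≤ m := by
  have e1 := hneg κB c' hκ hc
  have e2 := hneg (1 / (200 * (3 * MS))) c' (by positivity) hc
  have e3 := hneg (min (1 / 2) (z0 / 8)) c' (by positivity) hc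
  have e4 := hmix (1 / κB) 0 (a / 400) (by positivity)
  have e5 := hmix 2 (2 - a / 100) (2 - a / 800) (by linarith)
  have h := ((((e1.and e2).and e3).and e4).and e5)
  rw [eventually_atTop] at h
  obtain ⟨d0, hd0⟩ := h
  refine ⟨max d0 1, fun d hd aC gC haC haC1 hg hg1 => ?_⟩
  obtain ⟨⟨⟨⟨f1, f2⟩, f3⟩, f4⟩, f5⟩ := hd0 d ((le_max_left _ _).trans hd)
  have hd1 : 1 ≤ d := (le_max_right _ _).trans hd
  have hdr : (0 : ℝ) < d := by exact_mod_cast hd1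
  have hdr1 : (1 : ℝ) ≤ d := by exact_mod_cast hd1
  rw [Real.rpow_zero, mul_one] at f4
  have hg0 : 0 < gC := lt_of_lt_of_le (Real.rpow_pos_of_pos hdr _) hg
  have hg2 : (d : ℝ) ^ (-(a / 400)) ≤ gC ^ 2 := by
    have h1 : (d : ℝ) ^ (-(a / 400)) = ((d : ℝ) ^ (-(a / 800))) ^ 2 := by
      rw [← Real.rpow_natCast, ← Real.rpow_mul hdr.le]
      congr 1
      push_cast
      ring
    rw [h1]
    exact pow_le_pow_left₀ (Real.rpow_nonneg hdr.le _) hg 2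
  have h200 : (d : ℝ) ^ (-(a / 200)) ≤ κB * gC ^ 2 := by
    have h1 : (d : ℝ) ^ (-(a / 200)) = (d : ℝ) ^ (-(a / 400)) * (d : ℝ) ^ (-(a / 400)) := by
      rw [← Real.rpow_add hdr]
      congr 1
      ring
    rw [h1]
    refine mul_le_mul ?_ hg2 (Real.rpow_nonneg hdr.le _) hκ.le
    rw [Real.rpow_neg hdr.le]
    have h3 : 0 < (d : ℝ) ^ (a / 400) := Real.rpow_pos_of_pos hdr _
    rw [inv_le_comm₀ h3 hκ]
    rwa [one_div] at f4
  have h11 : gC ^ 2 ≤ 1 := by nlinarith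
  refine ⟨hd1, haC1.trans f1, ?_, ?_, h200, ?_, ?_, ?_⟩
  · refine le_trans ?_ h200
    exact Real.rpow_le_rpow_of_exponent_le hdr1 (by linarith)
  · nlinarith
  · have h1 : aC ≤ 1 / (200 * (3 * MS)) := haC1.trans f2
    have h2 : aC ≤ 1 / 2 := haC1.trans (f3.trans (min_le_left _ _))
    rw [le_div_iff₀ (by positivity)] at h1
    nlinarith
  · have h1 : aC ≤ z0 / 8 := haC1.trans (f3.trans (min_le_right _ _))
    have h2 : aC ≤ 1 / 2 := haC1.trans (f3.trans (min_le_left _ _))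
    have h3 : aC ^ 2 ≤ 1 := by nlinarith
    have h4 : aC ^ 3 ≤ aC := by
      calc aC ^ 3 = aC * aC ^ 2 := by ring
        _ ≤ aC * 1 := mul_le_mul_of_nonneg_left h3 haC.le
        _ = aC := mul_one _
    linarith
  · intro m hm
    have h1 : (d : ℝ) ^ (2 - a / 800) ≤ gC * (d : ℝ) ^ 2 := by
      have h2 : (d : ℝ) ^ (2 - a / 800) = (d : ℝ) ^ (-(a / 800)) * (d : ℝ) ^ 2 := by
        rw [← Real.rpow_natCast, ← Real.rpow_add hdr]
        congr 1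
        push_cast
        ring
      rw [h2]
      exact mul_le_mul_of_nonneg_right hg (by positivity)
    have h2 : (d : ℝ) ≤ (d : ℝ) ^ (2 - a / 100) := by
      calc (d : ℝ) = (d : ℝ) ^ (1 : ℝ) := (Real.rpow_one _).symm
        _ ≤ (d : ℝ) ^ (2 - a / 100) := Real.rpow_le_rpow_of_exponent_le hdr1 (by linarith)
    linarith

section same
variable {V : Type u} [Fintype V] {N J : ℕ} {X X' : XD V N J} {G : SimpleGraph V} {d : ℕ}

theorem same_lko {z0 κ : ℝ} {Cs : Finset (Finset V)} (h : SameX X X')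
    (hL : LkO z0 κ G d Cs X) : (∀ v ∈ X'.Hv, InT X' Ty.K v) ∧
      (∀ Q ∈ Cs, ((Q.filter fun v => v ∈ X'.P.V0 ∨ v ∈ X'.Hv).card : ℝ) ≤ κ * d) := by
  refine ⟨fun v hv => ?_, fun Q hQ => ?_⟩
  · rw [h.Hv] at hv
    have h1 := hL.hk v hv
    unfold InT at h1 ⊢
    rw [h.V0, h.ty, h.pc]
    exact h1
  · refine le_trans (Nat.cast_le.2 (card_le_card fun v hv => ?_)) (hL.vh Q hQ)
    rw [mem_filter, h.V0, h.Hv] at hv
    rw [mem_filter]
    exact hv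

end same

/-- a positive lower bound for finitely many scales -/
theorem low_fin {J : ℕ} (f : Fin J → ℝ) (hf : ∀ s, 0 < f s) (x : ℝ) (hx : 0 < x) :
    ∃ δ : ℝ, 0 < δ ∧ δ ≤ x ∧ ∀ s, δ ≤ f s := by
  by_cases hJ : Nonempty (Fin J)
  · obtain ⟨s0, -, hs0⟩ := Finset.exists_min_image (univ : Finset (Fin J)) f
      (Finset.univ_nonempty)
    exact ⟨min x (f s0), lt_min hx (hf s0), min_le_left _ _, fun s =>
      (min_le_right _ _).trans (hs0 s (mem_univ _))⟩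
  · exact ⟨x, hx, le_rfl, fun s => absurd ⟨s⟩ hJ⟩

end Pool.Agent.Work.MP_db9399_outx
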