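import Pool.Agent.Work.MP_db9399_outx.Maps
import Pool.Agent.Work.MP_db9399_outx.CO
import Pool.Agent.Work.MP_db9399_outx.Large

/-! # MP_db9399, OUTX (helper72): the hypotheses of the blocks on `V ⊕ Y` -/

set_option autoImplicit false
set_option linter.unusedSectionVars false

namespace Pool.Agent.Work.MP_db9399_outx

open Finset hiding box
open Classical
open Pool.Agent.Work.MP_db9399_all (nb mis)
open Pool.Agent.Work.MP_db9399_da
open Pool.Agent.Work.MP_db9399_xf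
open Pool.Agent.Work.MP_db9399_iv
open Pool.Agent.Work.MP_db9399_sg (nod nsd)
open Pool.Agent.Work.MP_db9399_oxe (Erx ccv OwP sLam)
open Pool.Agent.Work.MP_db9399_cfg_helper44 (CfO CfG)
open Pool.Agent.Work.MP_db9399_oxa.helper75 (mG)

universe u

variable {V Y : Type u} [Fintype V] [Fintype Y] {N J : ℕ} {X : XD V N J}
  {C g z θk θ' η a : ℝ} {M : ℕ} {S : Fin J → Scl} {G : SimpleGraph V} {d : ℕ}

/-- `|A \ B| ≤ |A' \ B'|` for the images -/
theorem sdiff_inl_le (inst : DecidableEq (V ⊕ Y)) (A B : Finset V) :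
    (A \ B).card ≤ ((A.map (Function.Embedding.inl : V ↪ V ⊕ Y)) \
      (B.map (Function.Embedding.inl : V ↪ V ⊕ Y))).card := by
  rw [← Finset.card_map (Function.Embedding.inl : V ↪ V ⊕ Y)]
  refine card_le_card fun x hx => ?_
  rw [Finset.mem_map] at hx
  obtain ⟨v, hv, rfl⟩ := hx
  rw [mem_sdiff] at hv ⊢
  exact ⟨mem_inl.2 hv.1, fun h => hv.2 (mem_inl.1 h)⟩

/-- the vertices which get own colours in the outside stage -/
noncomputable def Uo (G : SimpleGraph V) (X : XD V N J) (d : ℕ) : Finset V := univ.filter (Ow G X d)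

theorem mem_Uo {v : V} : v ∈ Uo G X d ↔ Ow G X d v := by
  unfold Uo
  rw [mem_filter]
  exact ⟨fun h => h.2, fun h => ⟨mem_univ _, h⟩⟩

theorem mem_OV {v : V} : v ∈ OV X ↔ InO X v := by
  unfold OV
  rw [mem_filter]
  exact ⟨fun h => h.2, fun h => ⟨mem_univ _, h⟩⟩

theorem Uo_sub : Uo G X d ⊆ OV X := fun v hv => mem_OV.2 (ow_inO (mem_Uo.1 hv))

/-- (F) -/
theorem co_lift (inst : DecidableEq (V ⊕ Y)) {K : Type u} {c : ℝ} {D : K → ℕ}
    {H : K → SimpleGraph V}
    (h : ∀ κ, ∀ x ∈ OV X, ¬ Ow G X d x → (D κ : ℝ) ≤ 4 / c * ((nb (H κ) x \ OV X).card : ℝ))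
    (hc : 0 < c) (j : K) (p : V ⊕ Y)
    (hp : p ∈ (OV X).map (Function.Embedding.inl : V ↪ V ⊕ Y))
    (hpU : p ∉ (Uo G X d).map (Function.Embedding.inl : V ↪ V ⊕ Y)) :
    (D j : ℝ) ≤ 4 / c * ((nb ((H j).map (Function.Embedding.inl : V ↪ V ⊕ Y)) p \
      (OV X).map (Function.Embedding.inl : V ↪ V ⊕ Y)).card : ℝ) := by
  rcases p with x | y
  · rw [nb_inl]
    refine (h j x (mem_inl.1 hp) fun h3 => hpU (mem_inl.2 (mem_Uo.2 h3))).trans ?_
    refine mul_le_mul_of_nonneg_left ?_ (by positivity)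
    exact_mod_cast sdiff_inl_le _ (nb (H j) x) (OV X)
  · exact absurd hp not_inr

/-- degrees of the conflict graph -/
theorem cf_lift (inst : DecidableEq (V ⊕ Y)) {Q : Type u} [Fintype Q] {Cf : SimpleGraph V}
    {Z : Q → Finset V} (h : CfG G d X Cf Z) (p : V ⊕ Y) :
    2 * (nb (Cf.map (Function.Embedding.inl : V ↪ V ⊕ Y)) p).card ≤
      (nb ((Erx G X).map (Function.Embedding.inl : V ↪ V ⊕ Y)) p \
        (Uo G X d).map (Function.Embedding.inl : V ↪ V ⊕ Y)).card := by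
  rcases p with x | y
  · rw [nb_inl, nb_inl, card_map]
    by_cases hx : Ow G X d x
    · rw [nb_erx (ow_inO hx)]
      refine (h.deg x).trans (le_trans (card_le_card fun w hw => ?_)
        (sdiff_inl_le _ (nb G x) (Uo G X d)))
      rw [mem_filter] at hw
      rw [mem_sdiff, mem_Uo]
      exact hw
    · have h1 : nb Cf x = ∅ := by
        rw [eq_empty_iff_forall_notMem]
        intro w hw
        rw [memN] at hw
        exact hx (h.ow x w hw).1
      rw [h1, card_empty, Nat.mul_zero]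
      exact Nat.zero_le _
  · rw [nb_inr, card_empty, Nat.mul_zero]
    exact Nat.zero_le _

/-- edges in no class -/
def NoCls {T K : Type u} [Fintype T] [Fintype K] (E : SimpleGraph T) (H : K → SimpleGraph T)
    (O : Finset T) (C : ℝ) : Prop :=
  ∀ v ∈ O, (((nb E v ∩ O).filter fun w => ∀ j, ¬ (H j).Adj v w).card : ℝ) ≤ C

theorem noCls_of {T W K : Type u} [Fintype T] [Fintype W] [Fintype K] (ι : W ↪ T)
    {E : SimpleGraph T} {H : K → SimpleGraph T} {O : Finset T} {C : ℝ} {F : W → Finset W}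
    (h1 : ∀ v ∈ O, ∃ x, v = ι x ∧ ((F x).card : ℝ) ≤ C ∧ ∀ w, E.Adj v w → w ∈ O →
      (∀ j, ¬ (H j).Adj v w) → ∃ y, w = ι y ∧ y ∈ F x) : NoCls E H O C := by
  intro v hv
  obtain ⟨x, -, h2, h3⟩ := h1 v hv
  refine le_trans ?_ h2
  rw [← Finset.card_map ι]
  refine Nat.cast_le.2 (card_le_card fun w hw => ?_)
  rw [mem_filter, mem_inter, memN] at hw
  obtain ⟨y, rfl, hy⟩ := h3 w hw.1.1 hw.1.2 hw.2
  exact Finset.mem_map.2 ⟨y, hy, rfl⟩

theorem noCls_lift {K : Type u} [Fintype K] {H : K → SimpleGraph V} {CC C2 : ℝ}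
    (h : ∀ v ∈ OV X, (((nb G v ∩ OV X).filter fun w => ∀ κ, ¬ (H κ).Adj v w).card : ℝ) ≤ CC)
    (hC : CC ≤ C2) : NoCls ((Erx G X).map (Function.Embedding.inl : V ↪ V ⊕ Y))
      (fun κ => (H κ).map (Function.Embedding.inl : V ↪ V ⊕ Y))
      ((OV X).map (Function.Embedding.inl : V ↪ V ⊕ Y)) C2 := by
  refine noCls_of (Function.Embedding.inl : V ↪ V ⊕ Y)
    (F := fun v => (nb G v ∩ OV X).filter fun w => ∀ κ, ¬ (H κ).Adj v w) fun p hp => ?_
  rcases p with x | y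
  · refine ⟨x, rfl, (h x (mem_inl.1 hp)).trans hC, fun w hw hwO hno => ?_⟩
    obtain ⟨x', w', h1, rfl, h3⟩ := adj_map hw
    have h4 := Sum.inl_injective h1
    subst h4
    refine ⟨w', rfl, ?_⟩
    rw [mem_filter, mem_inter, memN]
    exact ⟨⟨h3.1, mem_inl.1 hwO⟩, fun κ h5 => hno κ (adj_inl.2 h5)⟩
  · exact absurd hp not_inr

/-- missing pairs -/
theorem mis_lift {b : ℝ} (h : ∀ v, Ow G X d v → b ≤ ((mis G (nb G v)).card : ℝ)) (p : V ⊕ Y)
    (hp : p ∈ (Uo G X d).map (Function.Embedding.inl : V ↪ V ⊕ Y)) :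
    b ≤ ((mis ((Erx G X).map (Function.Embedding.inl : V ↪ V ⊕ Y))
      (nb ((Erx G X).map (Function.Embedding.inl : V ↪ V ⊕ Y)) p)).card : ℝ) := by
  rcases p with x | y
  · have hx : Ow G X d x := mem_Uo.1 (mem_inl.1 hp)
    rw [nb_inl, mis_map, nb_erx (ow_inO hx)]
    exact (h x hx).trans (by exact_mod_cast card_le_card (mis_erx (G := G) (X := X) (nb G x)))
  · exact absurd hp not_inr

/-- degrees -/
theorem deg_lift (hreg : ∀ v, (nb G v).card = d) (p : V ⊕ Y) :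
    (nb ((Erx G X).map (Function.Embedding.inl : V ↪ V ⊕ Y)) p).card ≤ d :=
  nb_map_le (fun v => (card_le_card (nb_erx_sub v)).trans (hreg v).le) p

theorem deg_lift' (hreg : ∀ v, (nb G v).card = d) (p : V ⊕ Y)
    (hp : p ∈ (Uo G X d).map (Function.Embedding.inl : V ↪ V ⊕ Y)) :
    (nb ((Erx G X).map (Function.Embedding.inl : V ↪ V ⊕ Y)) p).card = d := by
  rcases p with x | y
  · rw [nb_inl, card_map, nb_erx (ow_inO (mem_Uo.1 (mem_inl.1 hp)))]
    exact hreg x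
  · exact absurd hp not_inr

theorem nsd_le_nod {I : Type u} [Fintype I] (nd : V → Option (I × Bool)) (i : I) (s : Bool) :
    (nsd nd i s).card ≤ (nod nd i).card := by
  refine card_le_card fun v hv => ?_
  unfold nsd at hv
  unfold nod
  rw [mem_filter] at hv ⊢
  exact ⟨mem_univ _, s, hv.2⟩

/-- `m ≤ 20 D + 8 |nod|` -/
theorem mG_le {D : Cx.{u} → ℕ} (κ : Cx.{u}) (i : NI.{u} N) :
    (mG (ndx X) D κ i : ℝ) ≤ 20 * D κ + 8 * (nod (ndx X κ) i).card := by
  unfold mG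
  have h1 : ∀ s, (nsd (ndx X κ) i s).card ≤ (nod (ndx X κ) i).card :=
    fun s => nsd_le_nod _ _ _
  have h2 := max_le (h1 false) (h1 true)
  have h3 : ((max (nsd (ndx X κ) i false).card (nsd (ndx X κ) i true).card : ℕ) : ℝ) ≤
      (nod (ndx X κ) i).card := by exact_mod_cast h2
  push_cast at h3 ⊢
  linarith

end Pool.Agent.Work.MP_db9399_outx
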