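import Pool.Agent.Work.MP_db9399_outx.Mono
import Pool.Agent.Work.MP_db9399_ox_helper35.OXDA
import Pool.Agent.Work.MP_db9399_cfg_helper44.Stmt

/-! # MP_db9399, OUTX (helper72): real vertices inside `V ⊕ Y`, own colours -/

set_option autoImplicit false
set_option linter.unusedSectionVars false

namespace Pool.Agent.Work.MP_db9399_outx

open Finset Classical
open Pool.Agent.Work.MP_db9399_all (nb mis)
open Pool.Agent.Work.MP_db9399_da
open Pool.Agent.Work.MP_db9399_xf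
open Pool.Agent.Work.MP_db9399_iv
open Pool.Agent.Work.MP_db9399_oxe (Erx ccv OwP)
open Pool.Agent.Work.MP_db9399_owc (Cap)
open Pool.Agent.Work.MP_db9399_cfg_helper44 (CfO CfG)

universe u

section maps
variable {W Y : Type u} [Fintype W] [Fintype Y]

theorem memN {V : Type u} [Fintype V] {G : SimpleGraph V} {v w : V} : w ∈ nb G v ↔ G.Adj v w := by
  unfold nb
  rw [mem_filter]
  exact ⟨fun h => h.2, fun h => ⟨mem_univ _, h⟩⟩

theorem mem_inl {T : Finset W} {w : W} :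
    (Sum.inl w : W ⊕ Y) ∈ T.map Function.Embedding.inl ↔ w ∈ T :=
  Finset.mem_map' (Function.Embedding.inl : W ↪ W ⊕ Y)

theorem not_inr {T : Finset W} {y : Y} :
    (Sum.inr y : W ⊕ Y) ∉ T.map Function.Embedding.inl := by
  intro h
  rw [Finset.mem_map] at h
  obtain ⟨x, -, hx⟩ := h
  exact Sum.inl_ne_inr hx

theorem adj_inl {E : SimpleGraph W} {v w : W} :
    (E.map (Function.Embedding.inl : W ↪ W ⊕ Y)).Adj (Sum.inl v) (Sum.inl w) ↔ E.Adj v w :=
  SimpleGraph.map_adj_apply (f := (Function.Embedding.inl : W ↪ W ⊕ Y))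

/-- both ends are real -/
theorem adj_map {E : SimpleGraph W} {p q : W ⊕ Y}
    (h : (E.map (Function.Embedding.inl : W ↪ W ⊕ Y)).Adj p q) :
    ∃ v w, p = Sum.inl v ∧ q = Sum.inl w ∧ E.Adj v w := by
  rw [SimpleGraph.map_adj] at h
  obtain ⟨v, w, h1, h2, h3⟩ := h
  exact ⟨v, w, h2.symm, h3.symm, h1⟩

theorem nb_inl (H : SimpleGraph W) (w : W) :
    nb (H.map (Function.Embedding.inl : W ↪ W ⊕ Y)) (Sum.inl w) =
      (nb H w).map Function.Embedding.inl :=
  Pool.Agent.Work.MP_db9399_ox.helper35.nb_map H w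

theorem nb_inr (H : SimpleGraph W) (y : Y) :
    nb (H.map (Function.Embedding.inl : W ↪ W ⊕ Y)) (Sum.inr y) = ∅ :=
  Pool.Agent.Work.MP_db9399_ox.helper35.nb_map_inr H y

theorem nb_map_le {H : SimpleGraph W} {d : ℕ} (h : ∀ v, (nb H v).card ≤ d) (p : W ⊕ Y) :
    (nb (H.map (Function.Embedding.inl : W ↪ W ⊕ Y)) p).card ≤ d := by
  rcases p with v | y
  · rw [nb_inl, card_map]
    exact h v
  · rw [nb_inr, card_empty]
    exact Nat.zero_le _

theorem mem_mis {V : Type u} {G : SimpleGraph V} {A : Finset V} {p q : V} :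
    (p, q) ∈ mis G A ↔ p ∈ A ∧ q ∈ A ∧ p ≠ q ∧ ¬ G.Adj p q := by
  unfold mis
  rw [mem_filter, mem_product]
  exact ⟨fun h => ⟨h.1.1, h.1.2, h.2.1, h.2.2⟩, fun h => ⟨⟨h.1, h.2.1⟩, h.2.2.1, h.2.2.2⟩⟩

theorem mis_map (E : SimpleGraph W) (T : Finset W) :
    (mis (E.map (Function.Embedding.inl : W ↪ W ⊕ Y)) (T.map Function.Embedding.inl)).card =
      (mis E T).card := by
  have h : mis (E.map (Function.Embedding.inl : W ↪ W ⊕ Y)) (T.map Function.Embedding.inl) =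
      (mis E T).map ⟨fun p => ((Sum.inl p.1 : W ⊕ Y), (Sum.inl p.2 : W ⊕ Y)), fun p q h => by
        have h1 := Prod.mk.inj h
        exact Prod.ext (Sum.inl_injective h1.1) (Sum.inl_injective h1.2)⟩ := by
    ext ⟨p, q⟩
    rw [mem_mis, Finset.mem_map, Finset.mem_map, Finset.mem_map]
    constructor
    · rintro ⟨⟨v, hv, h1⟩, ⟨w, hw, h2⟩, h3, h4⟩
      subst h1
      subst h2
      refine ⟨(v, w), mem_mis.2 ⟨hv, hw, fun h5 => h3 (congrArg _ h5), fun h5 => ?_⟩, rfl⟩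
      exact h4 (adj_inl.2 h5)
    · rintro ⟨⟨v, w⟩, h1, h2⟩
      rw [mem_mis] at h1
      have h3 := Prod.mk.inj h2
      obtain ⟨h4, h5⟩ := h3
      subst h4
      subst h5
      refine ⟨⟨v, h1.1, rfl⟩, ⟨w, h1.2.1, rfl⟩, fun h5 => h1.2.2.1 (Sum.inl_injective h5),
        fun h5 => h1.2.2.2 (adj_inl.1 h5)⟩
  rw [h, card_map]

theorem cap_of {V Q : Type u} [Fintype Q] {d : ℕ} {Z : Q → Finset V}
    (h1 : ∀ y, (Z y).card ≤ d ^ 2)
    (h2 : ∀ v, ∀ F : Finset Q, (∀ y ∈ F, v ∈ Z y) → F.card ≤ d ^ 3) : Cap d Z :=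
  ⟨h1, fun v => h2 v _ fun _ hy => (mem_filter.1 hy).2⟩

theorem of_cap {V Q : Type u} [Fintype Q] {d : ℕ} {Z : Q → Finset V} (h : Cap d Z) (v : V)
    (F : Finset Q) (hF : ∀ y ∈ F, v ∈ Z y) : F.card ≤ d ^ 3 :=
  (card_le_card fun y hy => mem_filter.2 ⟨mem_univ _, hF y hy⟩).trans (h.mul v)

theorem cap_map {Q : Type u} [Fintype Q] {d : ℕ} {Z : Q → Finset W} (h : Cap d Z) :
    Cap d (fun y => (Z y).map (Function.Embedding.inl : W ↪ W ⊕ Y)) := by
  refine cap_of (fun y => ?_) fun p F hF => ?_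
  · rw [card_map]
    exact h.card y
  · rcases p with v | y
    · exact of_cap h v F fun y hy => mem_inl.1 (hF y hy)
    · rw [card_eq_zero.2]
      · exact Nat.zero_le _
      · rw [eq_empty_iff_forall_notMem]
        intro q hq
        exact not_inr (hF q hq)

theorem cap_inl {P : ℕ} {K : ℝ} {d : ℕ} {Z : Finset W} {cc : W ⊕ Y → Option (Fin P)}
    {b : Fin P} {F : Finset (W ⊕ Y)} (hF : ∀ v, v ∈ Z → cc (Sum.inl v) = some b → Sum.inl v ∈ F)
    (h : (F.card : ℝ) ≤ K * (1 + ((Z.map (Function.Embedding.inl : W ↪ W ⊕ Y)).card : ℝ) / d)) :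
    ((Z.filter (fun v => cc (Sum.inl v) = some b)).card : ℝ) ≤ K * (1 + (Z.card : ℝ) / d) := by
  rw [card_map] at h
  refine le_trans ?_ h
  rw [← Finset.card_map (Function.Embedding.inl : W ↪ W ⊕ Y)]
  refine Nat.cast_le.2 (card_le_card fun x hx => ?_)
  rw [Finset.mem_map] at hx
  obtain ⟨w, hw, rfl⟩ := hx
  rw [mem_filter] at hw
  exact hF w hw.1 hw.2

end maps

section erx
variable {V : Type u} [Fintype V] {N J : ℕ} {X : XD V N J} {G : SimpleGraph V} {d : ℕ}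

theorem nb_erx {v : V} (h : InO X v) : nb (Erx G X) v = nb G v := by
  ext w
  rw [memN, memN]
  exact ⟨fun h1 => h1.1, fun h1 => ⟨h1, fun h2 => h2.2.1 h⟩⟩

theorem nb_erx_sub (v : V) : nb (Erx G X) v ⊆ nb G v := by
  intro w hw
  rw [memN] at hw ⊢
  exact hw.1

theorem mis_erx (T : Finset V) : mis G T ⊆ mis (Erx G X) T := by
  intro p hp
  unfold mis at hp ⊢
  rw [mem_filter] at hp ⊢
  exact ⟨hp.1, hp.2.1, fun h => hp.2.2 h.1⟩

theorem ow_inO {v : V} (h : Ow G X d v) : InO X v := Or.inl h.1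

/-- own colours as numbers -/
theorem owp_of {Q : Type u} [Fintype Q] {P : ℕ} {cc : V → Option (Fin P)} {Cf : SimpleGraph V}
    {Z : Q → Finset V} {S : Fin J → Scl} {τ e : ℝ}
    (hdom : ∀ v, cc v ≠ none ↔ Ow G X d v) (hP : P ≤ d)
    (hcp : ∀ v w, (Erx G X).Adj v w → cc v ≠ none → cc v ≠ cc w) (hCf : CfG G d X Cf Z)
    (hCfc : ∀ v w, Cf.Adj v w → cc v ≠ cc w)
    (hcap : ∀ y b, (((Z y).filter (fun v => cc v = some b)).card : ℝ) ≤
      Real.log d ^ 4 * (1 + ((Z y).card : ℝ) / d))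
    (hO : ∀ c : V → ℕ, (∀ v w, Cf.Adj v w → c v ≠ c w) →
      (∀ y b, (((Z y).filter (fun v => c v = b)).card : ℝ) ≤
        Real.log d ^ 4 * (1 + ((Z y).card : ℝ) / d)) → CfO τ e (1 / 250) S G d X c (Ow G X d)) :
    OwP τ e (1 / 250) S G d X (ccv cc) (Ow G X d) := by
  have hsome : ∀ v, Ow G X d v → ∃ b : Fin P, cc v = some b ∧ ccv cc v = (b : ℕ) := by
    intro v hv
    obtain ⟨b, hb⟩ := Option.ne_none_iff_exists'.1 ((hdom v).2 hv)
    exact ⟨b, hb, by unfold ccv; rw [hb]; rfl⟩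
  have hne : ∀ v w, Ow G X d v → Ow G X d w → cc v ≠ cc w → ccv cc v ≠ ccv cc w := by
    intro v w hv hw h h1
    obtain ⟨b, hb, hb'⟩ := hsome v hv
    obtain ⟨b2, hb2, hb2'⟩ := hsome w hw
    rw [hb', hb2'] at h1
    exact h (by rw [hb, hb2, Fin.ext h1])
  have hlog : (0 : ℝ) ≤ Real.log d ^ 4 := by positivity
  have h := hO (ccv cc) (fun v w hvw => hne v w (hCf.ow v w hvw).1 (hCf.ow v w hvw).2
    (hCfc v w hvw)) (fun y b => by
      by_cases hb : b < P
      · refine le_trans (Nat.cast_le.2 (card_le_card fun v hv => ?_)) (hcap y ⟨b, hb⟩)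
        rw [mem_filter] at hv ⊢
        obtain ⟨b2, hb2, hb2'⟩ := hsome v (hCf.zow y v hv.1)
        refine ⟨hv.1, ?_⟩
        rw [hb2]
        congr 1
        exact Fin.ext (by rw [← hb2', hv.2])
      · have h1 : (Z y).filter (fun v => ccv cc v = b) = ∅ := by
          rw [eq_empty_iff_forall_notMem]
          intro v hv
          rw [mem_filter] at hv
          obtain ⟨b2, hb2, hb2'⟩ := hsome v (hCf.zow y v hv.1)
          exact hb (by rw [← hv.2, hb2']; exact b2.2)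
        rw [h1, card_empty]
        push_cast
        positivity)
  refine ⟨fun v hv => ?_, fun v w hv hw hG => ?_, h.big, h.sml, h.dif, h.non⟩
  · obtain ⟨b, -, hb⟩ := hsome v hv
    rw [hb]
    have := b.2
    omega
  · refine hne v w hv hw (hcp v w ⟨hG, fun h2 => h2.2.1 (ow_inO hv)⟩ ((hdom v).2 hv))

end erx

end Pool.Agent.Work.MP_db9399_outx
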