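import Pool.Agent.Work.MP_db9399_ox.Interface
import Pool.Agent.Work.MP_db9399_og.Interface2
import Pool.Agent.Work.MP_db9399_outx.Stmt

/-! # MP_db9399, OUTX (helper72): monotonicity in the constants -/

set_option autoImplicit false

namespace Pool.Agent.Work.MP_db9399_outx

open Finset Classical
open Pool.Agent.Work.MP_db9399_all (nb mis)
open Pool.Agent.Work.MP_db9399_cg (cdg pk sx sp)
open Pool.Agent.Work.MP_db9399_da
open Pool.Agent.Work.MP_db9399_xf
open Pool.Agent.Work.MP_db9399_sg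
open Pool.Agent.Work.MP_db9399_ox
open Pool.Agent.Work.MP_db9399_og (Flw)

universe u

section ox
variable {V I I' J : Type u} [Fintype V] [Fintype I] [Fintype I'] [Fintype J]

theorem wld_mono {H Gh : SimpleGraph V} {O A Ex : Finset V} {nd : V → Option (I × Bool)} {D : ℕ}
    {MS g δ β c1 C C₂ ρ0 : ℝ} (h : Wld H Gh O A Ex nd D MS g δ β c1 C ρ0) (hC : C ≤ C₂) :
    Wld H Gh O A Ex nd D MS g δ β c1 C₂ ρ0 where
  HG := h.HG
  OA := h.OA
  nA := h.nA
  cov := h.cov
  sup := h.sup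
  gad := h.gad
  deg := h.deg
  dex := h.dex
  exc := h.exc
  lgt := h.lgt
  sz := h.sz
  sz1 := h.sz1
  sz2 := fun i s => (h.sz2 i s).trans (mul_le_mul_of_nonneg_right hC (Nat.cast_nonneg _))
  sm := h.sm
  cl := h.cl

theorem cls_mono {H Gh : J → SimpleGraph V} {O W : Finset V} {A Ex : J → Finset V}
    {nd : J → V → Option (I × Bool)} {pr : I → I'} {d : ℕ} {D r : J → ℕ}
    {a MS g δ β c1 C C₂ C' C'₂ ρ0 : ℝ} (h : Cls H Gh O W A Ex nd pr d D r a MS g δ β c1 C C' ρ0)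
    (hC : C ≤ C₂) (hC' : C' ≤ C'₂) :
    Cls H Gh O W A Ex nd pr d D r a MS g δ β c1 C₂ C'₂ ρ0 where
  wld := fun j => wld_mono (h.wld j) hC'
  OW := h.OW
  HW := h.HW
  dum := h.dum
  one := h.one
  dis := h.dis
  lgt := h.lgt
  sz := h.sz
  bal := h.bal
  prc := h.prc
  Dd := fun j => ⟨(h.Dd j).1, (h.Dd j).2.trans (mul_le_mul_of_nonneg_right hC (Nat.cast_nonneg _))⟩
  Jc := h.Jc.trans hC
  rr := h.rr
  rd := h.rd

theorem mt0_mono {P : ℕ} {H S : J → SimpleGraph V} {cl : Fin P → J} {O : Finset V}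
    {nd : J → V → Option (I × Bool)} {pr : I → I'} {d : ℕ} {D r : J → ℕ} {a ε1 ε1' ρ1 : ℝ} {L : ℕ}
    {N0 : Fin P → V → V} (h : Mt0 H S cl O nd pr d D r a ε1 ρ1 L N0) (he : ε1 ≤ ε1')
    (hr : ∀ j, r j ≤ D j) : Mt0 H S cl O nd pr d D r a ε1' ρ1 L N0 := by
  have h1 : ∀ j, (1 + ε1) * ((D j : ℝ) - r j) ≤ (1 + ε1') * ((D j : ℝ) - r j) := by
    intro j
    have h2 : (r j : ℝ) ≤ D j := by exact_mod_cast hr j
    exact mul_le_mul_of_nonneg_right (by linarith) (by linarith)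
  exact
    { NN := h.NN
      NG := h.NG
      Nd := h.Nd
      co := h.co
      sum := h.sum
      win := h.win
      winS := fun j i => (h.winS j i).trans (by have := h1 j; linarith)
      winP := h.winP
      winPS := fun j i => (h.winPS j i).trans (by have := h1 j; linarith)
      load := h.load
      tok := h.tok
      tkc := h.tkc
      tst := fun j v => (h.tst j v).trans he }

theorem own1_mono {P : ℕ} {E : SimpleGraph V} {H S : J → SimpleGraph V} {cl : Fin P → J}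
    {O U : Finset V} {nd : J → V → Option (I × Bool)} {d : ℕ} {r : J → ℕ}
    {a C2 e2 e2' ε1 ε1' : ℝ} {L : ℕ} {c : V → Option (Fin P)} {N : Fin P → V → V}
    (h : Own1 E H S cl O U nd d r a C2 e2 ε1 L c N) (he : e2 ≤ e2') (hε : ε1 ≤ ε1') :
    Own1 E H S cl O U nd d r a C2 e2' ε1' L c N where
  UO := h.UO
  dom := h.dom
  cp := h.cp
  own := h.own
  ow := h.ow
  tst := fun j v => (h.tst j v).trans (by linarith)
  mlt := fun j v => (h.mlt j v).trans
    (div_le_div_of_nonneg_right he (Nat.cast_nonneg _))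
  vdc := h.vdc
  ndc := h.ndc
  nds := fun j i => (h.nds j i).trans (by
    have := mul_le_mul_of_nonneg_right hε (Nat.cast_nonneg (α := ℝ) d)
    linarith)

theorem flw_mono {H S : SimpleGraph V} {O U : Finset V} {r L : ℕ} {e e' : ℝ}
    (h : Flw H S O U r L e) (he : e ≤ e') : Flw H S O U r L e' := fun v => (h v).trans he

end ox

section pc
variable {V : Type u} [Fintype V] {N J : ℕ} {X : XD V N J}
  {C g z θk θ' θ₂ η η₂ a : ℝ} {M : ℕ} {S S₂ : Fin J → Scl} {G : SimpleGraph V} {d : ℕ}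

/-- larger `θ'`, `η`, `θ` -/
theorem pcd_mono (h : PcD C g z θk θ' η a M S G d X) (h1 : θ' ≤ θ₂) (h2 : η ≤ η₂)
    (hρ : ∀ s, (S₂ s).ρ = (S s).ρ) (hζ : ∀ s, (S₂ s).ζ = (S s).ζ)
    (hθ : ∀ s, (S s).θ ≤ (S₂ s).θ) : PcD C g z θk θ₂ η₂ a M S₂ G d X where
  reg := h.reg
  emp := h.emp
  cln := h.cln
  clp := h.clp
  scq := h.scq
  clc := h.clc
  npc := h.npc
  out := h.out
  hvc := h.hvc
  xs := h.xs
  v0c := fun v hv => (h.v0c v hv).trans
    (mul_le_mul_of_nonneg_right (hθ _) (Nat.cast_nonneg _))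
  kL := h.kL
  kU := h.kU
  kd := h.kd
  ki := h.ki
  kl := fun v hv => le_trans (mul_le_mul_of_nonneg_right (by linarith) (Nat.cast_nonneg _))
    (h.kl v hv)
  ks := fun n hn => (h.ks n hn).trans (mul_le_mul_of_nonneg_right
    (mul_le_mul_of_nonneg_right h2 (Nat.cast_nonneg _)) (Nat.cast_nonneg _))
  kh := fun n hn => (h.kh n hn).trans (mul_le_mul_of_nonneg_right h2 (Nat.cast_nonneg _))
  kz := h.kz
  thd := fun v hv => by
    rw [hζ]
    exact h.thd v hv
  ths := fun n hn => (h.ths n hn).trans (mul_le_mul_of_nonneg_right (hθ _) (by positivity))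
  nL := h.nL
  n4 := h.n4
  bE := h.bE
  cut := fun n hn T => by
    rw [hρ]
    exact h.cut n hn T
  nbi := fun n hn T => by
    rw [hρ]
    exact h.nbi n hn T
  bN := h.bN
  rgT := h.rgT
  rgd := fun w n β hw => by
    rw [hζ]
    exact h.rgd w n β hw
  rgp := h.rgp
  rgc := h.rgc
  rgm := fun n hn w hw β hβ => by
    rw [hζ]
    exact h.rgm n hn w hw β hβ

theorem pcx_mono (h : PcX C g z θk θ' η a M S G d X) (h1 : θ' ≤ θ₂) (h2 : η ≤ η₂)
    (hρ : ∀ s, (S₂ s).ρ = (S s).ρ) (hζ : ∀ s, (S₂ s).ζ = (S s).ζ)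
    (hε : ∀ s, (S₂ s).ε = (S s).ε)
    (hθ : ∀ s, (S s).θ ≤ (S₂ s).θ) : PcX C g z θk θ₂ η₂ a M S₂ G d X where
  toPcD := pcd_mono h.toPcD h1 h2 hρ hζ hθ
  kC := fun n hn i l => (h.kC n hn i l).trans (mul_le_mul_of_nonneg_right h2 (Nat.cast_nonneg _))
  cutP := fun n hn i T hT => by
    rw [hρ]
    exact h.cutP n hn i T hT
  nS := h.nS
  nD := fun n hn v β i => by
    rw [hε]
    exact h.nD n hn v β i
  bB := h.bB
  bS := h.bS
  bD := fun n hn v i => by
    rw [hε]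
    exact h.bD n hn v i
  thq := fun n hn i => by
    rw [hε]
    exact h.thq n hn i
  lbw := fun n hn w hw β i hh => by
    rw [hζ] at hh
    exact h.lbw n hn w hw β i hh

end pc

end Pool.Agent.Work.MP_db9399_outx
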