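import Pool.Agent.Work.MP_db9399_oxe_helper48.Defs

/-! # MP_db9399, OUTX: the degrees of the classes and their palettes (helper72) -/

set_option autoImplicit false

namespace Pool.Agent.Work.MP_db9399_outx

open Finset Classical Filter Topology
open Pool.Agent.Work.MP_db9399_iv
open Pool.Agent.Work.MP_db9399_oxe (NmX)

universe u

theorem hpow (b : ℝ) (hb : 0 < b) : Tendsto (fun d : ℕ => (d : ℝ) ^ b) atTop atTop :=
  (tendsto_rpow_atTop hb).comp tendsto_natCast_atTop_atTop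

/-- `K d ^ α ≤ d ^ β` for large `d` -/
theorem hmix (K α β : ℝ) (h : α < β) :
    ∀ᶠ d : ℕ in atTop, K * (d : ℝ) ^ α ≤ (d : ℝ) ^ β := by
  have h1 := (hpow (β - α) (by linarith)).eventually_ge_atTop K
  filter_upwards [h1, eventually_ge_atTop 1] with d h2 h3
  have hd : (0 : ℝ) < d := by exact_mod_cast h3
  calc K * (d : ℝ) ^ α ≤ (d : ℝ) ^ (β - α) * (d : ℝ) ^ α :=
        mul_le_mul_of_nonneg_right h2 (Real.rpow_nonneg hd.le _)
    _ = (d : ℝ) ^ β := by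
        rw [← Real.rpow_add hd]
        congr 1
        ring

/-- a sum over the six classes -/
theorem sumCx (f : Cx.{u} → ℕ) : ∑ κ, f κ = (f (Cx.C 0) + f (Cx.C 1) + f (Cx.C 2)) +
    (f (Cx.Q false) + f (Cx.Q true)) + f Cx.R := by
  have h : (univ : Finset Cx.{u}) = {Cx.C 0, Cx.C 1, Cx.C 2, Cx.Q false, Cx.Q true, Cx.R} := by
    ext κ
    simp only [mem_univ, mem_insert, mem_singleton, true_iff]
    rcases κ with j | i | _
    · fin_cases j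
      · exact Or.inl rfl
      · exact Or.inr (Or.inl rfl)
      · exact Or.inr (Or.inr (Or.inl rfl))
    · cases i
      · exact Or.inr (Or.inr (Or.inr (Or.inl rfl)))
      · exact Or.inr (Or.inr (Or.inr (Or.inr (Or.inl rfl))))
    · exact Or.inr (Or.inr (Or.inr (Or.inr (Or.inr rfl))))
  rw [h]
  rw [sum_insert (by simp), sum_insert (by simp), sum_insert (by simp), sum_insert (by simp),
    sum_insert (by simp), sum_singleton]
  ring

theorem cardCx : Fintype.card Cx.{u} = 6 := by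
  have h := sumCx.{u} (fun _ => 1)
  simpa using h

/-- colours with given numbers of colours in the classes -/
theorem exCl {K : Type u} [Fintype K] (p : K → ℕ) : ∃ cl : Fin (∑ κ, p κ) → K,
    ∀ κ, (univ.filter fun b => cl b = κ).card = p κ := by
  have e0 : Fintype.card (Σ κ, Fin (p κ)) = ∑ κ, p κ := by
    rw [Fintype.card_sigma]
    exact Finset.sum_congr rfl fun κ _ => Fintype.card_fin _
  obtain ⟨e⟩ : Nonempty ((Σ κ, Fin (p κ)) ≃ Fin (∑ κ, p κ)) :=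
    ⟨(Fintype.equivFin _).trans (finCongr e0)⟩
  refine ⟨fun b => (e.symm b).1, fun κ => ?_⟩
  have h1 : (univ.filter fun b => (e.symm b).1 = κ) =
      (univ : Finset (Fin (p κ))).map ⟨fun x => e ⟨κ, x⟩, fun x y h => by
        have h2 := e.injective h
        injection h2 with _ h3⟩ := by
    ext b
    rw [mem_filter, Finset.mem_map]
    constructor
    · rintro ⟨-, h⟩
      obtain ⟨x, hx⟩ : ∃ x : Fin (p κ), (⟨κ, x⟩ : Σ κ, Fin (p κ)) = e.symm b := by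
        rcases hb : e.symm b with ⟨κ', x⟩
        rw [hb] at h
        subst h
        exact ⟨x, rfl⟩
      refine ⟨x, mem_univ _, ?_⟩
      change e ⟨κ, x⟩ = b
      rw [hx, Equiv.apply_symm_apply]
    · rintro ⟨x, -, h⟩
      change e ⟨κ, x⟩ = b at h
      refine ⟨mem_univ _, ?_⟩
      rw [← h, Equiv.symm_apply_apply]
  rw [h1, card_map, card_univ, Fintype.card_fin]

/-- number of colours of a class -/
noncomputable def pX (πk : ℝ) (d rr : ℕ) : Cx.{u} → ℕ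
  | Cx.C _ => ⌈πk * d⌉₊
  | Cx.Q _ => ⌈(1 - 3 * πk) / 100 * d⌉₊
  | Cx.R => d - (3 * (⌈πk * d⌉₊ + rr) + 2 * (⌈(1 - 3 * πk) / 100 * d⌉₊ + rr) + rr)

/-- **The numbers.** -/
theorem nums (πk a : ℝ) (h1 : 1 / 4 ≤ πk) (h2 : πk < 1 / 3) (ha : 0 < a) (ha1 : a ≤ 1 / 100) :
    ∃ d0 : ℕ, ∀ d : ℕ, d0 ≤ d → ∃ (P : ℕ) (D r : Cx.{u} → ℕ) (cl : Fin P → Cx.{u}), P ≤ d ∧
      NmX πk (200 / (1 - 3 * πk)) a d P D r cl ∧ ShaX πk d D ∧
      (∀ κ, Odd (r κ) ∧ 2 * (D κ : ℝ) ^ (1 - a) ≤ r κ ∧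
        (r κ : ℝ) + 2 ≤ (D κ : ℝ) ^ (1 - a / 3)) ∧
      (∀ κ, (d : ℝ) ^ (1 - a) ≤ r κ) := by
  have hp : 0 < 1 - 3 * πk := by linarith
  set CD : ℝ := 200 / (1 - 3 * πk) with hCD
  have hCD0 : 0 < CD := by positivity
  have hCD1 : 1 ≤ CD := by
    rw [hCD, le_div_iff₀ hp]
    linarith
  have hK : 0 < 1 / ((1 - 3 * πk) / 10 ^ 5) := by positivity
  have e1 := hmix (1 / ((1 - 3 * πk) / 10 ^ 5)) (1 - a / 2) 1 (by linarith)
  have e2 := hmix 4 (1 - a) (1 - a / 2) (by linarith)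
  have e3 := hmix (2 * CD) (1 - a / 2) (1 - a / 3) (by linarith)
  have e4 := hmix 100 0 (1 - a) (by linarith)
  have h := (((e1.and e2).and e3).and e4)
  rw [eventually_atTop] at h
  obtain ⟨d0, hd0⟩ := h
  refine ⟨max d0 1, fun d hd => ?_⟩
  obtain ⟨⟨⟨f1, f2⟩, f3⟩, f4⟩ := hd0 d ((le_max_left _ _).trans hd)
  have hd1 : 1 ≤ d := (le_max_right _ _).trans hd
  have hdr : (0 : ℝ) < d := by exact_mod_cast hd1
  have hdr1 : (1 : ℝ) ≤ d := by exact_mod_cast hd1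
  rw [Real.rpow_zero, mul_one] at f4
  rw [Real.rpow_one] at f1
  set y : ℝ := (d : ℝ) ^ (1 - a / 2) with hy
  have hy0 : 0 < y := Real.rpow_pos_of_pos hdr _
  have hy400 : 400 ≤ y := by linarith
  set R : ℕ := 2 * ⌊y / 2⌋₊ + 1 with hR
  have hR1 : y - 1 ≤ R := by
    have := Nat.lt_floor_add_one (y / 2)
    rw [hR]
    push_cast
    linarith
  have hR2 : (R : ℝ) ≤ y + 1 := by
    have := Nat.floor_le (show 0 ≤ y / 2 by linarith)
    rw [hR]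
    push_cast
    linarith
  have f1' : y ≤ (1 - 3 * πk) / 10 ^ 5 * d := by
    have h5 : 0 < (1 - 3 * πk) / 10 ^ 5 := by positivity
    rw [div_mul_eq_mul_div, one_mul, div_le_iff₀ h5] at f1
    linarith
  have hm : (1 - 3 * πk) * d = 10 ^ 5 * ((1 - 3 * πk) / 10 ^ 5 * d) := by ring
  set w : ℝ := (1 - 3 * πk) / 10 ^ 5 * d with hw
  have hw400 : 400 ≤ w := by linarith
  have hC1 : πk * d ≤ ⌈πk * d⌉₊ := Nat.le_ceil _
  have hC2 : (⌈πk * d⌉₊ : ℝ) < πk * d + 1 := Nat.ceil_lt_add_one (by positivity)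
  have hQ1 : (1 - 3 * πk) / 100 * d ≤ ⌈(1 - 3 * πk) / 100 * d⌉₊ := Nat.le_ceil _
  have hQ2 : (⌈(1 - 3 * πk) / 100 * d⌉₊ : ℝ) < (1 - 3 * πk) / 100 * d + 1 :=
    Nat.ceil_lt_add_one (by positivity)
  have hQw : (1 - 3 * πk) / 100 * d = 1000 * w := by rw [hw]; ring
  have hCw : 3 * (πk * d) = d - 10 ^ 5 * w := by rw [hw]; ring
  rw [hQw] at hQ1 hQ2
  have htot : 3 * (⌈πk * d⌉₊ + R) + 2 * (⌈(1 - 3 * πk) / 100 * d⌉₊ + R) + R ≤ d := by
    have : (3 * ((⌈πk * d⌉₊ : ℝ) + R) + 2 * ((⌈(1 - 3 * πk) / 100 * d⌉₊ : ℝ) + R) + R) ≤ d := by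
      rw [hQw]
      linarith
    exact_mod_cast this
  have hpR : ((pX.{u} πk d R Cx.R : ℕ) : ℝ) = d - (3 * ((⌈πk * d⌉₊ : ℝ) + R) +
      2 * ((⌈(1 - 3 * πk) / 100 * d⌉₊ : ℝ) + R) + R) := by
    have h3 : pX.{u} πk d R Cx.R = d - (3 * (⌈πk * d⌉₊ + R) +
      2 * (⌈(1 - 3 * πk) / 100 * d⌉₊ + R) + R) := rfl
    rw [h3, Nat.cast_sub htot]
    push_cast
    ring
  rw [hQw] at hpR
  have hDlo : ∀ κ, 400 * w ≤ ((pX.{u} πk d R κ + R : ℕ) : ℝ) := by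
    intro κ
    push_cast
    rcases κ with j | i | _
    · change 400 * w ≤ ((⌈πk * d⌉₊ : ℕ) : ℝ) + R
      nlinarith
    · change 400 * w ≤ ((⌈(1 - 3 * πk) / 100 * d⌉₊ : ℕ) : ℝ) + R
      rw [hQw]
      linarith
    · rw [hpR]
      linarith
  have hDd : ∀ κ, (d : ℝ) ≤ CD * ((pX.{u} πk d R κ + R : ℕ) : ℝ) := by
    intro κ
    have h5 : (d : ℝ) ≤ CD * (500 * w) := by
      rw [hCD, hw, div_mul_eq_mul_div, le_div_iff₀ hp]
      linarith
    have h6 : ∀ κ, 500 * w ≤ ((pX.{u} πk d R κ + R : ℕ) : ℝ) := by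
      intro κ
      push_cast
      rcases κ with j | i | _
      · change 500 * w ≤ ((⌈πk * d⌉₊ : ℕ) : ℝ) + R
        nlinarith
      · change 500 * w ≤ ((⌈(1 - 3 * πk) / 100 * d⌉₊ : ℕ) : ℝ) + R
        rw [hQw]
        linarith
      · rw [hpR]
        linarith
    exact h5.trans (mul_le_mul_of_nonneg_left (h6 κ) hCD0.le)
  have hsum : ∑ κ, (pX.{u} πk d R κ + R) = d := by
    rw [sumCx]
    have h3 : pX.{u} πk d R Cx.R = d - (3 * (⌈πk * d⌉₊ + R) +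
      2 * (⌈(1 - 3 * πk) / 100 * d⌉₊ + R) + R) := rfl
    have h4 : ∀ j, pX.{u} πk d R (Cx.C j) = ⌈πk * d⌉₊ := fun _ => rfl
    have h5 : ∀ i, pX.{u} πk d R (Cx.Q i) = ⌈(1 - 3 * πk) / 100 * d⌉₊ := fun _ => rfl
    rw [h3, h4, h4, h4, h5, h5]
    omega
  have hDle : ∀ κ, pX.{u} πk d R κ + R ≤ d := by
    intro κ
    calc pX.{u} πk d R κ + R ≤ ∑ κ, (pX.{u} πk d R κ + R) :=
          Finset.single_le_sum (f := fun κ => pX.{u} πk d R κ + R) (fun _ _ => Nat.zero_le _)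
            (mem_univ κ)
      _ = d := hsum
  have hlo : ∀ κ, 2 * ((pX.{u} πk d R κ + R : ℕ) : ℝ) ^ (1 - a) ≤ R := by
    intro κ
    have h3 : ((pX.{u} πk d R κ + R : ℕ) : ℝ) ^ (1 - a) ≤ (d : ℝ) ^ (1 - a) :=
      Real.rpow_le_rpow (Nat.cast_nonneg _) (by exact_mod_cast hDle κ) (by linarith)
    linarith
  have hhi : ∀ κ, (R : ℝ) + 2 ≤ ((pX.{u} πk d R κ + R : ℕ) : ℝ) ^ (1 - a / 3) := by
    intro κ
    have h3 : (d : ℝ) ^ (1 - a / 3) ≤ CD * ((pX.{u} πk d R κ + R : ℕ) : ℝ) ^ (1 - a / 3) := by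
      calc (d : ℝ) ^ (1 - a / 3) ≤ (CD * ((pX.{u} πk d R κ + R : ℕ) : ℝ)) ^ (1 - a / 3) :=
            Real.rpow_le_rpow hdr.le (hDd κ) (by linarith)
        _ = CD ^ (1 - a / 3) * ((pX.{u} πk d R κ + R : ℕ) : ℝ) ^ (1 - a / 3) :=
            Real.mul_rpow hCD0.le (Nat.cast_nonneg _)
        _ ≤ CD * ((pX.{u} πk d R κ + R : ℕ) : ℝ) ^ (1 - a / 3) := by
            refine mul_le_mul_of_nonneg_right ?_ (Real.rpow_nonneg (Nat.cast_nonneg _) _)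
            calc CD ^ (1 - a / 3) ≤ CD ^ (1 : ℝ) :=
                  Real.rpow_le_rpow_of_exponent_le hCD1 (by linarith)
              _ = CD := Real.rpow_one _
    have h4 : 2 * CD * y ≤ CD * ((pX.{u} πk d R κ + R : ℕ) : ℝ) ^ (1 - a / 3) := f3.trans h3
    have h5 : 2 * y ≤ ((pX.{u} πk d R κ + R : ℕ) : ℝ) ^ (1 - a / 3) := by
      have h6 : CD * (2 * y) ≤ CD * ((pX.{u} πk d R κ + R : ℕ) : ℝ) ^ (1 - a / 3) := by linarith
      exact le_of_mul_le_mul_left h6 hCD0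
    linarith
  obtain ⟨cl, hcl⟩ := exCl (pX.{u} πk d R)
  refine ⟨∑ κ, pX.{u} πk d R κ, fun κ => pX.{u} πk d R κ + R, fun _ => R, cl, ?_, ?_, ?_, ?_, ?_⟩
  · calc ∑ κ, pX.{u} πk d R κ ≤ ∑ κ, (pX.{u} πk d R κ + R) :=
          Finset.sum_le_sum fun _ _ => Nat.le_add_right _ _
      _ = d := hsum
  · refine ⟨fun κ => ?_, hsum, hDd, hlo, hhi, fun j => ?_, fun i => ?_⟩
    · rw [hcl]
    · rw [hcl]
      exact ⟨hC1, hC2.le⟩
    · rw [hcl]
      refine ⟨?_, ?_⟩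
      · change (1 - 3 * πk) / 100 * d ≤ ((⌈(1 - 3 * πk) / 100 * d⌉₊ : ℕ) : ℝ)
        rw [hQw]
        exact hQ1
      · change ((⌈(1 - 3 * πk) / 100 * d⌉₊ : ℕ) : ℝ) ≤ (1 - 3 * πk) / 100 * d + 1
        rw [hQw]
        exact hQ2.le
  · refine ⟨fun _ _ => rfl, rfl, fun j => ?_, fun i => ?_, hsum⟩
    · change |((⌈πk * d⌉₊ + R : ℕ) : ℝ) - πk * d| ≤ (1 - 3 * πk) / 10 ^ 4 * d
      have h3 : (1 - 3 * πk) / 10 ^ 4 * d = 10 * w := by rw [hw]; ring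
      rw [h3, abs_le]
      push_cast
      constructor <;> linarith
    · change |((⌈(1 - 3 * πk) / 100 * d⌉₊ + R : ℕ) : ℝ) - (1 - 3 * πk) / 100 * d| ≤
        (1 - 3 * πk) / 10 ^ 4 * d
      have h3 : (1 - 3 * πk) / 10 ^ 4 * d = 10 * w := by rw [hw]; ring
      rw [h3, hQw, abs_le]
      push_cast
      constructor <;> linarith
  · intro κ
    exact ⟨⟨⌊y / 2⌋₊, rfl⟩, hlo κ, hhi κ⟩
  · intro κ
    linarith

end Pool.Agent.Work.MP_db9399_outx
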